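import Pool.Agent.AEL.SM
import Pool.Agent.AEL.AM
import Pool.Agent.AEL.T2

/-!
Definitions for the exceptional set version of the restriction theorem for linear images.
-/

namespace Pool.Agent.AEE

open MeasureTheory Set Pool.Agent.MP_6cbfb8_an Pool.Agent.MST Pool.Agent.AEL
open scoped ENNReal Real

/-- The integral of `A τ exp (-2 π i τ s)` over `a ≤ τ ≤ b`. -/
noncomputable def psA (A : ℝ → ℂ) (a b s : ℝ) : ℂ := ∫ τ in a..b, A τ * ex (τ * s)

/-- The amplitude with a weight `A` in the frequency variable, cut off to the ball of radius `R0`. -/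
noncomputable def amA {n : ℕ} (A : ℝ → ℂ) (R0 a b : ℝ) (l : Mat n × ℝ) (y : E n) : ℂ :=
  if ‖y‖ ≤ R0 then psA A a b (qf l.1 y + l.2) else 0

/-- The Fourier transform of `G` times the amplitude. -/
noncomputable def opA {n : ℕ} (A : ℝ → ℂ) (R0 a b : ℝ) (l : Mat n × ℝ) (G : E n → ℂ) (x : E n) :
    ℂ := ∫ w : E n, G w * amA A R0 a b l w * ex (inner ℝ w x)

/-- The weight `(τ / (2R))^k`. -/
noncomputable def pw (R : ℝ) (k : ℕ) (τ : ℝ) : ℂ := (((τ / (2 * R)) ^ k : ℝ) : ℂ)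

/-- The function `G` times a monomial of degree `2k`, cut off to the ball of radius `R0`. -/
noncomputable def Gs {n : ℕ} (R0 : ℝ) (G : E n → ℂ) (k : ℕ) (s : Fin k → Fin n × Fin n)
    (w : E n) : ℂ :=
  if ‖w‖ ≤ R0 then G w * ((∏ r, (w (s r).1 * w (s r).2 / R0 ^ 2) : ℝ) : ℂ) else 0

/-- The mean fourth power of the dyadic piece at frequency `2^k` over the quadrics
`⟨M y, y⟩ = κ`, `1 ≤ κ ≤ 2`. -/
noncomputable def HH {n : ℕ} (R0 : ℝ) (k : ℕ) (M : Mat n) (G : E n → ℂ) : ℝ≥0∞ :=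
  ∫⁻ κ in Icc (1:ℝ) 2, ∫⁻ x : E n,
    ‖op R0 ((2:ℝ) ^ k) (2 * (2:ℝ) ^ k) (M, -κ) G x‖ₑ ^ (4:ℝ)

/-- The complex conjugate of a function. -/
noncomputable def cj {n : ℕ} (G : E n → ℂ) (w : E n) : ℂ := (starRingEnd ℂ) (G w)

/-- The cube of matrices with entries at most `K` in absolute value. -/
def mc (n : ℕ) (K : ℝ) : Set (Mat n) := {M | ∀ i j, |M i j| ≤ K}

/-- A matrix with symmetric part `X^T X`; for `X0` fixed a local coordinate near `X0`. -/
noncomputable def Psi {n : ℕ} (X0 X : Mat n) : Mat n := fun i j =>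
  (∑ k, X k i * X k j) + (∑ k, X0 k i * X k j) - ∑ k, X k i * X0 k j

end Pool.Agent.AEE
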