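import Pool.Agent.AEE.XG

/-!
Stein's restriction conjecture for the sphere of `R^n`, `n ≥ 3`, for every bounded measurable
density on the whole sphere: the exceptional set of linear changes of variables at the exponent `p`
has codimension at least `(n - 1) - 2 / (p - 2)`, which is positive for `p > 2n/(n-1)`.
-/

namespace Pool.Agent.AEE.ExceptionalMatricesVariant

open MeasureTheory Set Pool.Agent.MP_6cbfb8_an Pool.Agent.MST
open scoped ENNReal Real

/-- Let `n ≥ 3`, let `G : R^n → ℂ` be bounded and measurable, and `p > 2`. Consider the invertible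
real `n × n` matrices `A` for which it fails that for almost every `r > 0` and every finite family of
half spaces the Fourier transform of the measure with density `G (r A x)`, restricted to the
intersection of the half spaces, with respect to surface measure on the unit sphere belongs to
`L^p`. The set of these matrices has Hausdorff dimension at most `n² - (n - 1) + 2 / (p - 2)`. -/
theorem result (n : ℕ) (hn : 3 ≤ n) (G : E n → ℂ) (hG : Measurable G)
    (hb : ∃ B : ℝ, ∀ w, ‖G w‖ ≤ B) (p : ℝ) (hp : 2 < p) :
    dimH {A : Mat n | (Matrix.of A).det ≠ 0 ∧ ¬ ∀ᵐ r : ℝ, 0 < r →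
      ∀ (N : ℕ) (v : Fin N → E n) (c : Fin N → ℝ),
        ∫⁻ ξ, ‖extn (fun x => G (mv A (r • x)) * ∏ i, hsn (c i) (v i) x) ξ‖ₑ ^ p < ∞} ≤
      ENNReal.ofReal ((n:ℝ) ^ 2 - (n - 1) + 2 / (p - 2)) :=
  Pool.Agent.AEE.exceptional_lin n hn G hG hb p hp

end Pool.Agent.AEE.ExceptionalMatricesVariant
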