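import Pool.Agent.AEE.Defs

namespace Pool.Agent.AEE

open MeasureTheory Set Pool.Agent.MP_6cbfb8_an Pool.Agent.MST Pool.Agent.AEL
open scoped ENNReal Real

theorem norm_psA_le (A : ℝ → ℂ) (a b : ℝ) (hab : a ≤ b) (h1 : ∀ τ ∈ Icc a b, ‖A τ‖ ≤ 1) (s : ℝ) :
    ‖psA A a b s‖ ≤ b - a := by
  unfold psA
  have h := intervalIntegral.norm_integral_le_of_norm_le_const (a := a) (b := b)
    (f := fun τ : ℝ => A τ * ex (τ * s)) (C := 1) (fun τ hτ => by
      rw [uIoc_of_le hab] at hτ
      rw [norm_mul, hkf_norm_ex, mul_one]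
      exact h1 τ (Ioc_subset_Icc_self hτ))
  rwa [one_mul, abs_of_nonneg (sub_nonneg.2 hab)] at h

theorem continuous_psA (A : ℝ → ℂ) (hA : Continuous A) (a b : ℝ) :
    Continuous fun s : ℝ => psA A a b s := by
  unfold psA
  refine intervalIntegral.continuous_parametric_intervalIntegral_of_continuous'
    (f := fun (s τ : ℝ) => A τ * ex (τ * s)) ?_ a b
  exact (hA.comp continuous_snd).mul (hkf_cont_ex.comp (continuous_snd.mul continuous_fst))

theorem norm_amA_le {n : ℕ} (A : ℝ → ℂ) (R0 a b : ℝ) (hab : a ≤ b)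
    (h1 : ∀ τ ∈ Icc a b, ‖A τ‖ ≤ 1) (l : Mat n × ℝ) (y : E n) : ‖amA A R0 a b l y‖ ≤ b - a := by
  unfold amA
  split_ifs
  · exact norm_psA_le A a b hab h1 _
  · rw [norm_zero]
    exact sub_nonneg.2 hab

theorem amA_zero {n : ℕ} (A : ℝ → ℂ) (R0 a b : ℝ) (l : Mat n × ℝ) (y : E n) (h : R0 < ‖y‖) :
    amA A R0 a b l y = 0 := by
  unfold amA
  rw [if_neg (not_le.2 h)]

theorem measurable_amA {n : ℕ} (A : ℝ → ℂ) (hA : Continuous A) (R0 a b : ℝ) :
    Measurable (Function.uncurry fun (l : Mat n × ℝ) (y : E n) => amA A R0 a b l y) := by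
  unfold amA
  refine Measurable.ite (measurableSet_le measurable_snd.norm measurable_const) ?_ measurable_const
  refine (continuous_psA A hA a b).measurable.comp ?_
  have h1 : Continuous fun q : (Mat n × ℝ) × E n => qf q.1.1 q.2 :=
    continuous_qf.comp ((continuous_fst.comp continuous_fst).prodMk continuous_snd)
  exact (h1.add (continuous_snd.comp continuous_fst)).measurable

theorem measurable_opA {n : ℕ} (A : ℝ → ℂ) (hA : Continuous A) (R0 a b : ℝ) (G : E n → ℂ)
    (hG : Measurable G) : Measurable fun q : (Mat n × ℝ) × E n => opA A R0 a b q.1 G q.2 := by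
  have hm : Measurable fun r : ((Mat n × ℝ) × E n) × E n =>
      G r.2 * amA A R0 a b r.1.1 r.2 * ex (inner ℝ r.2 r.1.2) := by
    have k2 : Measurable fun r : ((Mat n × ℝ) × E n) × E n => (r.1.1, r.2) := by fun_prop
    have k3 : Measurable fun r : ((Mat n × ℝ) × E n) × E n => r.1.2 := by fun_prop
    have k4 : Measurable fun r : ((Mat n × ℝ) × E n) × E n => r.2 := by fun_prop
    have h1 : Measurable fun r : ((Mat n × ℝ) × E n) × E n => G r.2 := hG.comp k4
    have h2 : Measurable fun r : ((Mat n × ℝ) × E n) × E n =>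
        Function.uncurry (fun (l : Mat n × ℝ) (y : E n) => amA A R0 a b l y) (r.1.1, r.2) :=
      (measurable_amA A hA R0 a b).comp k2
    have h3 : Measurable fun r : ((Mat n × ℝ) × E n) × E n => ex (inner ℝ r.2 r.1.2) :=
      hkf_cont_ex.measurable.comp (k4.inner k3)
    exact (h1.mul h2).mul h3
  exact (hm.stronglyMeasurable.integral_prod_right').measurable

theorem continuous_pw (R : ℝ) (k : ℕ) : Continuous (pw R k) := by
  unfold pw
  exact Complex.continuous_ofReal.comp ((continuous_id.div_const _).pow k)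

theorem norm_pw_le (R : ℝ) (hR : 0 < R) (k : ℕ) (τ : ℝ) (hτ : τ ∈ Icc R (2 * R)) :
    ‖pw R k τ‖ ≤ 1 := by
  unfold pw
  rw [Complex.norm_real, Real.norm_eq_abs, abs_pow]
  have h2R : 0 < 2 * R := by linarith
  have h1 : |τ / (2 * R)| ≤ 1 := by
    rw [abs_of_nonneg (div_nonneg (hR.le.trans hτ.1) h2R.le), div_le_one h2R]
    exact hτ.2
  exact pow_le_one₀ (abs_nonneg _) h1

theorem measurable_Gs {n : ℕ} (R0 : ℝ) (G : E n → ℂ) (hG : Measurable G) (k : ℕ)
    (s : Fin k → Fin n × Fin n) : Measurable (Gs R0 G k s) := by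
  unfold Gs
  refine Measurable.ite (measurableSet_le measurable_norm measurable_const) ?_ measurable_const
  refine hG.mul ?_
  have h1 : Continuous fun w : E n => ∏ r, (w (s r).1 * w (s r).2 / R0 ^ 2) :=
    continuous_finsetProd _ fun r _ => by fun_prop
  exact (Complex.continuous_ofReal.comp h1).measurable

theorem norm_Gs_le {n : ℕ} (R0 : ℝ) (hR0 : 0 < R0) (G : E n → ℂ) (hG : ∀ w, ‖G w‖ ≤ 1) (k : ℕ)
    (s : Fin k → Fin n × Fin n) (w : E n) : ‖Gs R0 G k s w‖ ≤ 1 := by
  unfold Gs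
  split_ifs with hw
  · rw [norm_mul, Complex.norm_real, Real.norm_eq_abs, Finset.abs_prod]
    have h1 : ∏ r, |w (s r).1 * w (s r).2 / R0 ^ 2| ≤ 1 := by
      refine Finset.prod_le_one (fun r _ => abs_nonneg _) fun r _ => ?_
      have h2 : ∀ i, |w i| ≤ R0 := fun i => by
        rw [← Real.norm_eq_abs]
        exact (PiLp.norm_apply_le w i).trans hw
      rw [abs_div, abs_mul, abs_of_nonneg (sq_nonneg R0), div_le_one (by positivity), sq]
      exact mul_le_mul (h2 _) (h2 _) (abs_nonneg _) hR0.le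
    calc ‖G w‖ * ∏ r, |w (s r).1 * w (s r).2 / R0 ^ 2| ≤ 1 * 1 :=
          mul_le_mul (hG w) h1 (Finset.prod_nonneg fun r _ => abs_nonneg _) zero_le_one
      _ = 1 := one_mul 1
  · rw [norm_zero]
    exact zero_le_one

end Pool.Agent.AEE
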