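import Pool.Agent.AEE.Defs
import Mathlib.Topology.MetricSpace.HausdorffDimension

namespace Pool.Agent.AEE

open MeasureTheory Set Pool.Agent.MP_6cbfb8_an Pool.Agent.MST Pool.Agent.AEL
open scoped ENNReal NNReal Real

/-- The index of the half open dyadic cube of side `2^(-k)` containing `M`. -/
noncomputable def hxc_fl {n : ℕ} (k : ℕ) (M : Mat n) : Fin n → Fin n → ℤ :=
  fun i j => ⌊M i j * (2:ℝ) ^ k⌋

theorem hxc_fl_meas {n : ℕ} (k : ℕ) : Measurable (hxc_fl (n := n) k) := by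
  unfold hxc_fl
  refine measurable_pi_lambda _ fun i => measurable_pi_lambda _ fun j => ?_
  have h1 : Measurable fun M : Mat n => M i j * (2:ℝ) ^ k :=
    ((measurable_pi_apply j).comp (measurable_pi_apply i)).mul_const _
  exact h1.floor

theorem hxc_cube {n : ℕ} (k : ℕ) (z : Fin n → Fin n → ℤ) :
    hxc_fl k ⁻¹' {z} = Set.pi univ (fun i => Set.pi univ (fun j =>
      Ico ((z i j : ℝ) / (2:ℝ) ^ k) (((z i j : ℝ) + 1) / (2:ℝ) ^ k))) := by
  have h2 : (0:ℝ) < (2:ℝ) ^ k := by positivity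
  ext M
  simp only [mem_preimage, mem_singleton_iff, Set.mem_pi, mem_univ, true_imp_iff, mem_Ico]
  constructor
  · intro h i j
    have h3 : ⌊M i j * (2:ℝ) ^ k⌋ = z i j := congrFun (congrFun h i) j
    rw [Int.floor_eq_iff] at h3
    rw [div_le_iff₀ h2, lt_div_iff₀ h2]
    exact h3
  · intro h
    funext i j
    have h3 := h i j
    rw [div_le_iff₀ h2, lt_div_iff₀ h2] at h3
    exact Int.floor_eq_iff.2 h3

theorem hxc_vol {n : ℕ} (k : ℕ) (z : Fin n → Fin n → ℤ) :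
    volume (hxc_fl k ⁻¹' {z}) = ENNReal.ofReal ((((2:ℝ) ^ k)⁻¹) ^ (n ^ 2)) := by
  have h2 : (0:ℝ) < (2:ℝ) ^ k := by positivity
  rw [hxc_cube, volume_pi_pi]
  have h1 : ∀ i : Fin n, volume (Set.pi univ (fun j =>
      Ico ((z i j : ℝ) / (2:ℝ) ^ k) (((z i j : ℝ) + 1) / (2:ℝ) ^ k))) =
      ENNReal.ofReal (((2:ℝ) ^ k)⁻¹) ^ n := by
    intro i
    rw [volume_pi_pi]
    have h3 : ∀ j : Fin n, volume (Ico ((z i j : ℝ) / (2:ℝ) ^ k) (((z i j : ℝ) + 1) / (2:ℝ) ^ k)) =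
        ENNReal.ofReal (((2:ℝ) ^ k)⁻¹) := by
      intro j
      rw [Real.volume_Ico]
      congr 1
      field_simp
      ring
    rw [Finset.prod_congr rfl fun j _ => h3 j, Finset.prod_const, Finset.card_univ,
      Fintype.card_fin]
  rw [Finset.prod_congr rfl fun i _ => h1 i, Finset.prod_const, Finset.card_univ,
    Fintype.card_fin, ← pow_mul, ← ENNReal.ofReal_pow (by positivity), pow_two]

theorem hxc_close {n : ℕ} {k : ℕ} {M M' : Mat n} (h : hxc_fl k M = hxc_fl k M') (i j : Fin n) :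
    |M i j - M' i j| ≤ 1 / (2:ℝ) ^ k := by
  have h2 : (0:ℝ) < (2:ℝ) ^ k := by positivity
  have h3 : ⌊M i j * (2:ℝ) ^ k⌋ = ⌊M' i j * (2:ℝ) ^ k⌋ := congrFun (congrFun h i) j
  have h4 := Int.floor_le (M i j * (2:ℝ) ^ k)
  have h5 := Int.lt_floor_add_one (M i j * (2:ℝ) ^ k)
  have h6 := Int.floor_le (M' i j * (2:ℝ) ^ k)
  have h7 := Int.lt_floor_add_one (M' i j * (2:ℝ) ^ k)
  rw [← h3] at h6 h7
  have h8 : |(M i j - M' i j) * (2:ℝ) ^ k| ≤ 1 := by
    rw [abs_le]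
    constructor <;> nlinarith
  rw [abs_mul, abs_of_pos h2] at h8
  rw [le_div_iff₀ h2]
  exact h8

theorem hxc_ediam {n : ℕ} (k : ℕ) (z : Fin n → Fin n → ℤ) :
    Metric.ediam (hxc_fl (n := n) k ⁻¹' {z}) ≤ ENNReal.ofReal (((2:ℝ) ^ k)⁻¹) := by
  refine Metric.ediam_le fun M hM M' hM' => ?_
  refine edist_pi_le_iff.2 fun i => edist_pi_le_iff.2 fun j => ?_
  rw [edist_dist, Real.dist_eq]
  apply ENNReal.ofReal_le_ofReal
  rw [← one_div]
  exact hxc_close ((mem_singleton_iff.1 hM).trans (mem_singleton_iff.1 hM').symm) i j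

theorem hxc_mc_meas (n : ℕ) (K : ℝ) : MeasurableSet (mc n K) := by
  have h1 : mc n K = ⋂ i, ⋂ j, {M : Mat n | |M i j| ≤ K} := by
    ext M
    simp [mc]
  rw [h1]
  refine MeasurableSet.iInter fun i => MeasurableSet.iInter fun j => ?_
  have h2 : Measurable fun M : Mat n => |M i j| :=
    ((measurable_pi_apply j).comp (measurable_pi_apply i)).abs
  exact h2 measurableSet_Iic

/-- Counting the cubes of one level. -/
theorem hxc_count (n : ℕ) (K : ℝ) (d : ℝ) (k : ℕ) (V : Mat n → ℝ≥0∞)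
    (thr B : ℝ) (hthr : 0 < thr) (hB0 : 0 ≤ B)
    (hB : ∫⁻ M in mc n (K + 1), V M ≤ ENNReal.ofReal B)
    (hit : (Fin n → Fin n → ℤ) → Prop) [DecidablePred hit]
    (hhit : ∀ z, hit z → ∀ M, hxc_fl k M = z → M ∈ mc n (K + 1) ∧ ENNReal.ofReal thr ≤ V M) :
    ∑' z, (if hit z then (ENNReal.ofReal (((2:ℝ) ^ k)⁻¹)) ^ d else 0) ≤
      ENNReal.ofReal (B / thr * ((2:ℝ) ^ k) ^ (n ^ 2) * (((2:ℝ) ^ k)⁻¹) ^ d) := by
  have h2 : (0:ℝ) < (2:ℝ) ^ k := by positivity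
  have h2i : (0:ℝ) < ((2:ℝ) ^ k)⁻¹ := by positivity
  set v : ℝ := (((2:ℝ) ^ k)⁻¹) ^ (n ^ 2) with hv
  have hv0 : 0 < v := by positivity
  set c : ℝ≥0∞ := (ENNReal.ofReal (((2:ℝ) ^ k)⁻¹)) ^ d with hc
  set C : ℝ≥0∞ := (ENNReal.ofReal (thr * v))⁻¹ * c with hC
  have hne : ENNReal.ofReal (thr * v) ≠ 0 := by
    rw [Ne, ENNReal.ofReal_eq_zero, not_le]
    positivity
  have h1 : ∀ z, (if hit z then c else 0) ≤
      (∫⁻ M in hxc_fl k ⁻¹' {z} ∩ mc n (K + 1), V M) * C := by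
    intro z
    by_cases hz : hit z
    · rw [if_pos hz, hC, ← mul_assoc]
      have hsub : hxc_fl (n := n) k ⁻¹' {z} ⊆ mc n (K + 1) := fun M hM => (hhit z hz M hM).1
      rw [inter_eq_left.2 hsub]
      have h3 : ENNReal.ofReal (thr * v) ≤ ∫⁻ M in hxc_fl k ⁻¹' {z}, V M := by
        calc ENNReal.ofReal (thr * v) = ∫⁻ M in hxc_fl (n := n) k ⁻¹' {z}, ENNReal.ofReal thr := by
              rw [setLIntegral_const, hxc_vol, ENNReal.ofReal_mul hthr.le]
          _ ≤ ∫⁻ M in hxc_fl k ⁻¹' {z}, V M := by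
              refine setLIntegral_mono' (hxc_fl_meas k (measurableSet_singleton z)) fun M hM => ?_
              exact (hhit z hz M hM).2
      have h4 : 1 ≤ (∫⁻ M in hxc_fl k ⁻¹' {z}, V M) * (ENNReal.ofReal (thr * v))⁻¹ := by
        rw [← ENNReal.mul_inv_cancel hne ENNReal.ofReal_ne_top]
        exact mul_le_mul_left h3 _
      calc c = 1 * c := (one_mul c).symm
        _ ≤ _ := mul_le_mul_left h4 _
    · rw [if_neg hz]
      exact zero_le
  refine (ENNReal.tsum_le_tsum h1).trans ?_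
  rw [ENNReal.tsum_mul_right, ← lintegral_iUnion
    (fun z => (hxc_fl_meas k (measurableSet_singleton z)).inter (hxc_mc_meas n (K + 1)))
    (by
      intro z z' hzz
      refine Disjoint.mono inter_subset_left inter_subset_left ?_
      rw [Set.disjoint_left]
      intro M hM hM'
      exact hzz ((mem_singleton_iff.1 hM).symm.trans (mem_singleton_iff.1 hM')))]
  have h5 : (⋃ z, hxc_fl (n := n) k ⁻¹' {z} ∩ mc n (K + 1)) = mc n (K + 1) := by
    ext M
    simp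
  rw [h5]
  refine (mul_le_mul_left hB C).trans ?_
  rw [hC, hc, ENNReal.ofReal_rpow_of_pos h2i, ← ENNReal.ofReal_inv_of_pos (by positivity),
    ← ENNReal.ofReal_mul (by positivity), ← ENNReal.ofReal_mul hB0]
  apply ENNReal.ofReal_le_ofReal
  apply le_of_eq
  have h6 : v⁻¹ = ((2:ℝ) ^ k) ^ (n ^ 2) := by
    rw [hv, inv_pow, inv_inv]
  rw [mul_inv, h6]
  field_simp

/-
ROW XC (1.2 h). Abstract covering lemma for matrices (adapt `exc_cover` of Pool.Agent.MST.ED4; nothing else of the project is needed). Grid cubes of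
side 2^(-k): Q k z = {M | ∀ i j, z i j / 2^k ≤ M i j ≤ (z i j + 1)/2^k}, z : Fin n → Fin n → ℤ; they cover, volume = (2^(-k))^(n²) (Real.volume_pi..,
two levels of Fin n → : volume_pi, Measure.pi_pi, Set.pi; use half open cubes for the disjointness), ediam ≤ 2^(-k) (sup metric). Call (k, z) hit if Q k z meets
bad k ∩ mc n K. Then Q k z ⊆ mc n (K + 1) and V k ≥ ofReal (thr k) on the whole cube, so (number of hit z) * (2^(-k))^(n²) * thr k ≤ B k (disjoint half open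
cubes, tsum of set lintegrals ≤ lintegral over mc n (K+1)). Hence Σ over hit (k, z) of (2^(-k))^d ≤ Σ_k B k/thr k * 2^(k n²) * 2^(-k d) < ∞. The set is covered, for every
k0, by the hit cubes with k ≥ k0: Measure.hausdorffMeasure_le_liminf_tsum, dimH_le_of_hausdorffMeasure_ne_top as in ED4 (d = 0 allowed; n = 0 allowed or trivial).
-/
theorem mat_cover (n : ℕ) (K : ℝ) (hK : 0 ≤ K) (d : ℝ≥0) (V : ℕ → Mat n → ℝ≥0∞)
    (hV : ∀ k, Measurable (V k)) (thr B : ℕ → ℝ) (hthr : ∀ k, 0 < thr k) (hB0 : ∀ k, 0 ≤ B k)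
    (hB : ∀ k, ∫⁻ M in mc n (K + 1), V k M ≤ ENNReal.ofReal (B k))
    (hsum : Summable fun k : ℕ => B k / thr k * ((2:ℝ) ^ k) ^ (n ^ 2) * (((2:ℝ) ^ k)⁻¹) ^ (d : ℝ))
    (bad : ℕ → Set (Mat n))
    (hbad : ∀ k, ∀ M ∈ bad k, M ∈ mc n K → ∀ M' : Mat n,
      (∀ i j, |M i j - M' i j| ≤ 1 / (2:ℝ) ^ k) → ENNReal.ofReal (thr k) ≤ V k M') :
    dimH {M : Mat n | M ∈ mc n K ∧ ∃ᶠ k in Filter.atTop, M ∈ bad k} ≤ d := by
  classical
  set hit : ℕ × (Fin n → Fin n → ℤ) → Prop := fun x =>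
    ∃ M ∈ bad x.1, M ∈ mc n K ∧ hxc_fl x.1 M = x.2 with hhit
  set f : ℕ × (Fin n → Fin n → ℤ) → ℝ≥0∞ := fun x =>
    if hit x then (ENNReal.ofReal (((2:ℝ) ^ x.1)⁻¹)) ^ (d : ℝ) else 0 with hf
  have hfsum : ∑' x, f x ≠ ∞ := by
    rw [ENNReal.tsum_prod (f := fun k z => f (k, z))]
    have h1 : ∀ k : ℕ, ∑' z, f (k, z) ≤ ENNReal.ofReal
        (B k / thr k * ((2:ℝ) ^ k) ^ (n ^ 2) * (((2:ℝ) ^ k)⁻¹) ^ (d : ℝ)) := by
      intro k
      refine hxc_count n K d k (V k) (thr k) (B k) (hthr k) (hB0 k) (hB k)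
        (fun z => hit (k, z)) ?_
      rintro z ⟨M, hM, hMK, hMz⟩ M' hM'
      have h3 : ∀ i j, |M i j - M' i j| ≤ 1 / (2:ℝ) ^ k :=
        fun i j => hxc_close (hMz.trans hM'.symm) i j
      refine ⟨fun i j => ?_, hbad k M hM hMK M' h3⟩
      have h4 : 1 / (2:ℝ) ^ k ≤ 1 := by
        rw [div_le_one (by positivity)]
        exact one_le_pow₀ (by norm_num)
      have h5 := h3 i j
      have h6 := hMK i j
      rw [abs_le] at h5 h6 ⊢
      constructor <;> linarith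
    refine ne_top_of_le_ne_top ?_ (ENNReal.tsum_le_tsum h1)
    have h2 : ∀ k : ℕ, 0 ≤ B k / thr k * ((2:ℝ) ^ k) ^ (n ^ 2) * (((2:ℝ) ^ k)⁻¹) ^ (d : ℝ) := by
      intro k
      have := hthr k
      have := hB0 k
      positivity
    rw [← ENNReal.ofReal_tsum_of_nonneg h2 hsum]
    exact ENNReal.ofReal_ne_top
  apply dimH_le_of_hausdorffMeasure_ne_top
  refine ne_top_of_le_ne_top hfsum ?_
  refine (Measure.hausdorffMeasure_le_liminf_tsum (ι := fun k0 : ℕ =>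
    {x : ℕ × (Fin n → Fin n → ℤ) // hit x ∧ k0 ≤ x.1}) (d : ℝ) _ (l := Filter.atTop)
    (fun k0 : ℕ => ENNReal.ofReal (((2:ℝ) ^ k0)⁻¹)) ?_
    (fun k0 x => hxc_fl x.1.1 ⁻¹' {x.1.2}) ?_ ?_).trans ?_
  · rw [← ENNReal.ofReal_zero]
    apply ENNReal.tendsto_ofReal
    have := tendsto_pow_atTop_nhds_zero_of_lt_one (r := (2⁻¹ : ℝ)) (by norm_num) (by norm_num)
    simpa only [inv_pow] using this
  · refine Filter.Eventually.of_forall fun k0 x => ?_
    refine (hxc_ediam _ _).trans (ENNReal.ofReal_le_ofReal ?_)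
    apply inv_anti₀ (by positivity)
    exact pow_le_pow_right₀ (by norm_num) x.2.2
  · refine Filter.Eventually.of_forall fun k0 M hM => ?_
    obtain ⟨k, hk, hMk⟩ := (Filter.frequently_atTop.1 hM.2) k0
    rw [mem_iUnion]
    exact ⟨⟨(k, hxc_fl k M), ⟨M, hMk, hM.1, rfl⟩, hk⟩, rfl⟩
  · apply Filter.liminf_le_of_frequently_le'
    apply Filter.Eventually.frequently
    refine Filter.Eventually.of_forall fun k0 => ?_
    have h1 : ∀ x : {x : ℕ × (Fin n → Fin n → ℤ) // hit x ∧ k0 ≤ x.1},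
        Metric.ediam (hxc_fl (n := n) x.1.1 ⁻¹' {x.1.2}) ^ (d : ℝ) ≤ f x.1 := by
      intro x
      simp only [hf]
      rw [if_pos x.2.1]
      exact ENNReal.rpow_le_rpow (hxc_ediam _ _) d.2
    exact (ENNReal.tsum_le_tsum h1).trans
      (ENNReal.tsum_comp_le_tsum_of_injective Subtype.val_injective f)

end Pool.Agent.AEE
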