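import Pool.Agent.AEE.Defs

namespace Pool.Agent.AEE

open MeasureTheory Set Pool.Agent.MP_6cbfb8_an Pool.Agent.MST Pool.Agent.AEL
open scoped ENNReal Real

theorem hxi_meas2 {n : ℕ} (R0 a b : ℝ) (G : E n → ℂ) (hG : Measurable G) (M : Mat n) :
    Measurable fun q : ℝ × E n => ‖op R0 a b (M, -q.1) G q.2‖ₑ := by
  have h1 := hsm_meas (n := n) R0 a b G hG
  have h2 : Measurable fun q : ℝ × E n => (((M, -q.1) : Mat n × ℝ), q.2) :=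
    (measurable_const.prodMk measurable_fst.neg).prodMk measurable_snd
  have h3 := h1.comp h2
  simp only [Function.comp_def] at h3
  exact h3

theorem hxi_measκ {n : ℕ} (R0 a b p : ℝ) (G : E n → ℂ) (hG : Measurable G) (M : Mat n) :
    Measurable fun κ : ℝ => ∫⁻ x : E n, ‖op R0 a b (M, -κ) G x‖ₑ ^ p :=
  Measurable.lintegral_prod_right' (f := fun q : ℝ × E n => ‖op R0 a b (M, -q.1) G q.2‖ₑ ^ p)
    ((hxi_meas2 R0 a b G hG M).pow_const p)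

theorem hxi_measPhi {n : ℕ} (R0 p : ℝ) (G : E n → ℂ) (hG : Measurable G) (M : Mat n) :
    Measurable fun κ : ℝ => ∫⁻ x : E n, Phi R0 (M, -κ) G x ^ p := by
  have h1 := hsm_measPhil (n := n) R0 p G hG
  have h2 : Measurable fun κ : ℝ => ((M, -κ) : Mat n × ℝ) := measurable_const.prodMk measurable_neg
  have h3 := h1.comp h2
  simp only [Function.comp_def] at h3
  exact h3

/-- every piece is uniformly bounded in `L^p` -/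
theorem hxi_unif (n : ℕ) (R0 a b p : ℝ) (hp : 2 ≤ p) : ∃ K : ℝ≥0∞, K < ∞ ∧
    ∀ (l : Mat n × ℝ) (G : E n → ℂ), Measurable G → (∀ w, ‖G w‖ ≤ 1) →
      ∫⁻ x : E n, ‖op R0 a b l G x‖ₑ ^ p ≤ K := by
  obtain ⟨C, hC, hop⟩ := op_bounds n R0 a b
  refine ⟨ENNReal.ofReal C ^ (p - 2) * ENNReal.ofReal C, ?_, fun l G hG hb => ?_⟩
  · exact ENNReal.mul_lt_top (ENNReal.rpow_lt_top_of_nonneg (by linarith) ENNReal.ofReal_ne_top)
      ENNReal.ofReal_lt_top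
  · refine (lintegral_rpow_le_sup _ (hsm_measx R0 a b G hG l) (by norm_num : (0 : ℝ) ≤ 2) hp
      (ENNReal.ofReal C) ?_).trans ?_
    · intro x
      rw [← ofReal_norm]
      exact ENNReal.ofReal_le_ofReal ((hop l G hG hb).1 x)
    · exact mul_le_mul_right (hop l G hG hb).2 _

theorem hxi_vol : (volume.restrict (Icc (1:ℝ) 2)) univ = 1 := by
  rw [Measure.restrict_apply_univ, Real.volume_Icc]
  norm_num

/-- every piece has finite mean -/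
theorem hxi_fin (n : ℕ) (R0 a b p : ℝ) (hp : 2 ≤ p) (M : Mat n) (G : E n → ℂ) (hG : Measurable G)
    (hb : ∀ w, ‖G w‖ ≤ 1) :
    ∫⁻ κ in Icc (1:ℝ) 2, ∫⁻ x : E n, ‖op R0 a b (M, -κ) G x‖ₑ ^ p < ∞ := by
  obtain ⟨K, hK, hle⟩ := hxi_unif n R0 a b p hp
  calc ∫⁻ κ in Icc (1:ℝ) 2, ∫⁻ x : E n, ‖op R0 a b (M, -κ) G x‖ₑ ^ p
      ≤ ∫⁻ _κ in Icc (1:ℝ) 2, K := lintegral_mono fun κ => hle (M, -κ) G hG hb
    _ = K := by rw [lintegral_const, hxi_vol, mul_one]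
    _ < ∞ := hK

theorem hxi_sum (u : ℕ → ℝ≥0∞) (hu : ∀ k, u k < ∞) (c : ℝ≥0∞) (hc : c < ∞) (δ : ℝ) (hδ : 0 < δ)
    (h : ∀ᶠ k : ℕ in Filter.atTop, u k ≤ c * (2 : ℝ≥0∞) ^ (-(δ * (k : ℝ)))) :
    ∑' k, u k < ∞ := by
  obtain ⟨k0, hk0⟩ := Filter.eventually_atTop.1 h
  have h1 : ∀ k, u k ≤ (if k ∈ Finset.range k0 then u k else 0) +
      c * (2 : ℝ≥0∞) ^ (-(δ * (k : ℝ))) := by
    intro k
    by_cases hk : k ∈ Finset.range k0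
    · rw [if_pos hk]
      exact le_self_add
    · rw [if_neg hk, zero_add]
      exact hk0 k (by simpa using hk)
  refine (ENNReal.tsum_le_tsum h1).trans_lt ?_
  rw [ENNReal.tsum_add]
  refine ENNReal.add_lt_top.2 ⟨?_, ?_⟩
  · rw [tsum_eq_sum (s := Finset.range k0) (fun k hk => if_neg hk)]
    refine ENNReal.sum_lt_top.2 fun k hk => ?_
    rw [if_pos hk]
    exact hu k
  · rw [ENNReal.tsum_mul_left]
    exact ENNReal.mul_lt_top hc (geom_fin δ hδ)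

theorem hxi_two (y : ℝ) : ENNReal.ofReal ((2:ℝ) ^ y) = (2 : ℝ≥0∞) ^ y := by
  rw [← ENNReal.ofReal_rpow_of_pos (by norm_num)]
  norm_num

/-- mean square bound -/
theorem sq_bound (n : ℕ) (R0 : ℝ) : ∃ C : ℝ, 0 < C ∧ ∀ (k : ℕ) (M : Mat n) (G : E n → ℂ),
    Measurable G → (∀ w, ‖G w‖ ≤ 1) →
    ∫⁻ κ in Icc (1:ℝ) 2, ∫⁻ x : E n, ‖op R0 ((2:ℝ) ^ k) (2 * (2:ℝ) ^ k) (M, -κ) G x‖ₑ ^ (2:ℝ) ≤
      ENNReal.ofReal (C * (2:ℝ) ^ k) := by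
  have hfin : volume (Metric.closedBall (0 : E n) R0) ≠ ∞ := measure_closedBall_lt_top.ne
  refine ⟨volume.real (Metric.closedBall (0 : E n) R0) + 1, by positivity, fun k M G hG hb => ?_⟩
  have hR : (0:ℝ) ≤ (2:ℝ) ^ k := by positivity
  calc ∫⁻ κ in Icc (1:ℝ) 2, ∫⁻ x : E n, ‖op R0 ((2:ℝ) ^ k) (2 * (2:ℝ) ^ k) (M, -κ) G x‖ₑ ^ (2:ℝ)
      ≤ ∫⁻ κ in Icc (1:ℝ) 2, ∫⁻ w in Metric.closedBall (0 : E n) R0,
          ‖ps ((2:ℝ) ^ k) (2 * (2:ℝ) ^ k) (qf M w + -κ)‖ₑ ^ (2:ℝ) :=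
        lintegral_mono fun κ => hl2_H R0 ((2:ℝ) ^ k) (M, -κ) G hG hb
    _ ≤ ∫⁻ κ : ℝ, ∫⁻ w in Metric.closedBall (0 : E n) R0,
          ‖ps ((2:ℝ) ^ k) (2 * (2:ℝ) ^ k) (qf M w + -κ)‖ₑ ^ (2:ℝ) :=
        setLIntegral_le_lintegral _ _
    _ = ∫⁻ κ : ℝ, ∫⁻ w in Metric.closedBall (0 : E n) R0,
          ‖ps ((2:ℝ) ^ k) (2 * (2:ℝ) ^ k) (qf M w + κ)‖ₑ ^ (2:ℝ) :=
        lintegral_neg_eq_self (fun κ : ℝ => ∫⁻ w in Metric.closedBall (0 : E n) R0,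
          ‖ps ((2:ℝ) ^ k) (2 * (2:ℝ) ^ k) (qf M w + κ)‖ₑ ^ (2:ℝ))
    _ ≤ ENNReal.ofReal ((2:ℝ) ^ k) * volume (Metric.closedBall (0 : E n) R0) :=
        hl2_c R0 ((2:ℝ) ^ k) hR M
    _ ≤ ENNReal.ofReal ((volume.real (Metric.closedBall (0 : E n) R0) + 1) * (2:ℝ) ^ k) := by
        rw [mul_comm (volume.real (Metric.closedBall (0 : E n) R0) + 1), ENNReal.ofReal_mul hR]
        refine mul_le_mul_right ?_ _
        rw [← ENNReal.ofReal_toReal hfin]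
        refine ENNReal.ofReal_le_ofReal ?_
        have e : volume.real (Metric.closedBall (0 : E n) R0) =
          (volume (Metric.closedBall (0 : E n) R0)).toReal := rfl
        rw [e]
        linarith

/-- interpolation between the second and the fourth power -/
theorem hxi_interp (n : ℕ) (R0 : ℝ) (p ε : ℝ) (hp : 2 < p) (hp4 : p < 4) : ∃ C : ℝ, 0 < C ∧
    ∀ (k : ℕ) (M : Mat n) (G : E n → ℂ), Measurable G → (∀ w, ‖G w‖ ≤ 1) →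
    HH R0 k M G ≤ ENNReal.ofReal ((2:ℝ) ^ (-(((4 - p) / (p - 2) + ε) * (k:ℝ)))) →
    ∫⁻ κ in Icc (1:ℝ) 2, ∫⁻ x : E n, ‖op R0 ((2:ℝ) ^ k) (2 * (2:ℝ) ^ k) (M, -κ) G x‖ₑ ^ p ≤
      ENNReal.ofReal C * (2 : ℝ≥0∞) ^ (-((ε * ((p - 2) / 2)) * (k : ℝ))) := by
  obtain ⟨C, hC, hsq⟩ := sq_bound n R0
  set a : ℝ := (4 - p) / 2 with ha
  set b : ℝ := 1 - a with hb
  have ha0 : 0 < a := by rw [ha]; linarith
  have ha1 : a < 1 := by rw [ha]; linarith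
  have hb0 : 0 < b := by rw [hb]; linarith
  have hb2 : (p - 2) / 2 = b := by rw [hb, ha]; ring
  refine ⟨C ^ a, by positivity, fun k M G hG hGb hH => ?_⟩
  set f : ℝ × E n → ℝ≥0∞ := fun q => ‖op R0 ((2:ℝ) ^ k) (2 * (2:ℝ) ^ k) (M, -q.1) G q.2‖ₑ with hf
  have hfm : Measurable f := hxi_meas2 R0 _ _ G hG M
  have hprod : ∀ s : ℝ, ∫⁻ q, f q ^ s ∂((volume.restrict (Icc (1:ℝ) 2)).prod volume) =
      ∫⁻ κ in Icc (1:ℝ) 2, ∫⁻ x : E n,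
        ‖op R0 ((2:ℝ) ^ k) (2 * (2:ℝ) ^ k) (M, -κ) G x‖ₑ ^ s := fun s =>
    lintegral_prod _ (hfm.pow_const s).aemeasurable
  have h1 := lintegral_interp (μ := (volume.restrict (Icc (1:ℝ) 2)).prod volume) f hfm (p := p)
    (q := 4) (a := a) ha0.le ha1.le (by norm_num) (by rw [ha]; ring)
  rw [hprod p, hprod 2, hprod 4] at h1
  refine h1.trans ?_
  have h2 := ENNReal.rpow_le_rpow (hsq k M G hG hGb) ha0.le
  have h3 := ENNReal.rpow_le_rpow hH hb0.le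
  refine (mul_le_mul' h2 h3).trans ?_
  have hk0 : (0:ℝ) ≤ (2:ℝ) ^ k := by positivity
  rw [ENNReal.ofReal_rpow_of_nonneg (by positivity) ha0.le, Real.mul_rpow hC.le hk0,
    ENNReal.ofReal_mul (by positivity), hxi_two, ← ENNReal.rpow_mul, mul_assoc]
  refine mul_le_mul_right (le_of_eq ?_) _
  have e1 : ((2:ℝ) ^ k) ^ a = (2:ℝ) ^ (a * (k:ℝ)) := by
    rw [← Real.rpow_natCast 2 k, ← Real.rpow_mul (by norm_num)]
    congr 1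
    ring
  rw [e1, hxi_two, ← ENNReal.rpow_add _ _ (by norm_num) (by norm_num), hb2]
  congr 1
  have e2 : (4 - p) / (p - 2) * b = a := by
    rw [← hb2, ha]
    have : p - 2 ≠ 0 := by linarith
    field_simp
  have e3 : a * (k:ℝ) + -(((4 - p) / (p - 2) + ε) * (k:ℝ)) * b =
      a * (k:ℝ) - ((4 - p) / (p - 2) * b) * k - (ε * b) * k := by ring
  rw [e3, e2]
  ring

/-
ROW XI (1.2 h). Adapt IP.lean and SM.lean of Pool.Agent.AEL. sq_bound: hl2_H (Pool.Agent.AEL.L2: ∫⁻ x ‖op R0 R (2R) l G x‖² ≤ ∫⁻ w in ball, ‖ps R (2R) (qf l.1 w + l.2)‖²),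
Tonelli, for fixed w the κ-integral over [1,2] is ≤ the integral over ℝ, translation, hl2_ps.
fin_of_HH: a = (4-p)/2, b = (p-2)/2, a + b = 1, p = 2a + 4b. Hölder on the product space (κ, x) as in `interp` (IP.lean):
∫⁻κ∫⁻x ‖op_k‖^p ≤ (C 2^k)^a (HH R0 k M G)^b ≤ C^a 2^(-(ε b) k) for k ≥ k0 (σ b = a); for k < k0 it is finite (op_bounds of Pool.Agent.AEL.L2: bounded and in L², p > 2,
finite κ-interval), so for all k it is ≤ C' 2^(-δ k) with C' ≠ ∞, δ = ε b. The same for cj G; the pieces over (-2·2^k, -2^k) have the same norms as those of cj G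
(op_neg_norm). Then sum exactly as in `Phi_fin` (SM.lean; hsm_pt, hsm_int with μ = volume.restrict (Icc 1 2) on κ instead of mu n, ε' = δ/(2p); the low piece op R0 (-1) 1 is
bounded and in L² uniformly: op_bounds): ∫⁻ κ in Icc 1 2, ∫⁻ x Phi R0 (M, -κ) G x ^ p < ∞, so the inner integral is finite for a.e. κ (ae_lt_top; hsm_measPhil).
-/
theorem fin_of_HH (n : ℕ) (R0 : ℝ) (hR0 : 1 ≤ R0) (p ε : ℝ) (hp : 2 < p) (hp4 : p < 4)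
    (hε : 0 < ε) (G : E n → ℂ) (hG : Measurable G) (hb : ∀ w, ‖G w‖ ≤ 1) (M : Mat n)
    (h1 : ∀ᶠ k : ℕ in Filter.atTop,
      HH R0 k M G ≤ ENNReal.ofReal ((2:ℝ) ^ (-(((4 - p) / (p - 2) + ε) * (k:ℝ)))))
    (h2 : ∀ᶠ k : ℕ in Filter.atTop,
      HH R0 k M (cj G) ≤ ENNReal.ofReal ((2:ℝ) ^ (-(((4 - p) / (p - 2) + ε) * (k:ℝ))))) :
    ∀ᵐ κ ∂(volume.restrict (Icc (1:ℝ) 2)), ∫⁻ x, Phi R0 (M, -κ) G x ^ p < ∞ := by
  have hp1 : 1 ≤ p := by linarith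
  have hp0 : 0 < p := by linarith
  obtain ⟨C, hC, hint⟩ := hxi_interp n R0 p ε hp hp4
  set ν : Measure ℝ := volume.restrict (Icc (1:ℝ) 2) with hν
  set δ : ℝ := ε * ((p - 2) / 2) with hδd
  have hδ : 0 < δ := by
    have : 0 < p - 2 := by linarith
    positivity
  set ε' : ℝ := δ / (2 * p) with hε'
  have hε0 : 0 < ε' := by positivity
  have hG'm : Measurable (cj G) := Complex.continuous_conj.measurable.comp hG
  have hG'b : ∀ w, ‖cj G w‖ ≤ 1 := fun w => by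
    unfold cj
    rw [RCLike.norm_conj]
    exact hb w
  set S0 : ℝ≥0∞ := ∑' k : ℕ, (2:ℝ≥0∞) ^ (-(ε' * (k:ℝ))) with hS0
  have hS0f : S0 < ∞ := geom_fin ε' hε0
  set A : ℝ → E n → ℝ≥0∞ := fun κ x => ‖op R0 (-1) 1 (M, -κ) G x‖ₑ with hA
  set f : ℕ → ℝ → E n → ℝ≥0∞ := fun k κ x =>
    ‖op R0 ((2:ℝ) ^ k) (2 * (2:ℝ) ^ k) (M, -κ) G x‖ₑ with hf
  set g : ℕ → ℝ → E n → ℝ≥0∞ := fun k κ x =>
    ‖op R0 (-(2 * (2:ℝ) ^ k)) (-((2:ℝ) ^ k)) (M, -κ) G x‖ₑ with hg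
  have hPhi : ∀ κ x, Phi R0 (M, -κ) G x = A κ x + ∑' k, (f k κ x + g k κ x) := fun κ x => rfl
  have hfl : ∀ᶠ k : ℕ in Filter.atTop, ∫⁻ κ, (∫⁻ x, f k κ x ^ p) ∂ν ≤
      ENNReal.ofReal C * (2 : ℝ≥0∞) ^ (-(δ * (k : ℝ))) :=
    h1.mono fun k hk => hint k M G hG hb hk
  have hgl : ∀ᶠ k : ℕ in Filter.atTop, ∫⁻ κ, (∫⁻ x, g k κ x ^ p) ∂ν ≤
      ENNReal.ofReal C * (2 : ℝ≥0∞) ^ (-(δ * (k : ℝ))) := by
    refine h2.mono fun k hk => ?_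
    have e1 : ∀ κ : ℝ, ∫⁻ x, g k κ x ^ p =
        ∫⁻ x, ‖op R0 ((2:ℝ) ^ k) (2 * (2:ℝ) ^ k) (M, -κ) (cj G) x‖ₑ ^ p := fun κ =>
      op_neg_norm R0 ((2:ℝ) ^ k) (2 * (2:ℝ) ^ k) p (M, -κ) G
    simp only [e1]
    exact hint k M (cj G) hG'm hG'b hk
  have hAm : ∀ κ, Measurable (A κ) := fun κ => hsm_measx R0 (-1) 1 G hG (M, -κ)
  have hfm : ∀ k κ, Measurable (f k κ) := fun k κ => hsm_measx R0 _ _ G hG (M, -κ)
  have hgm : ∀ k κ, Measurable (g k κ) := fun k κ => hsm_measx R0 _ _ G hG (M, -κ)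
  have hAml : Measurable fun κ => ∫⁻ x, A κ x ^ p := hxi_measκ R0 (-1) 1 p G hG M
  have hfml : ∀ k, Measurable fun κ => ∫⁻ x, f k κ x ^ p := fun k => hxi_measκ R0 _ _ p G hG M
  have hgml : ∀ k, Measurable fun κ => ∫⁻ x, g k κ x ^ p := fun k => hxi_measκ R0 _ _ p G hG M
  have hl : ∀ κ, ∫⁻ x, Phi R0 (M, -κ) G x ^ p ≤ 2 ^ (p - 1) * ((∫⁻ x, A κ x ^ p) + S0 ^ p *
      ∑' k : ℕ, (2:ℝ≥0∞) ^ (ε' * p * (k:ℝ)) * (2 ^ (p - 1) *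
        ((∫⁻ x, f k κ x ^ p) + ∫⁻ x, g k κ x ^ p))) := by
    intro κ
    calc ∫⁻ x, Phi R0 (M, -κ) G x ^ p ≤ ∫⁻ x, 2 ^ (p - 1) * (A κ x ^ p + S0 ^ p *
          ∑' k : ℕ, (2:ℝ≥0∞) ^ (ε' * p * (k:ℝ)) * (2 ^ (p - 1) * (f k κ x ^ p + g k κ x ^ p))) := by
          refine lintegral_mono fun x => ?_
          rw [hPhi]
          exact hsm_pt _ _ _ p ε' hp1
      _ = _ := hsm_int volume (fun x => A κ x ^ p) (fun k x => f k κ x ^ p) (fun k x => g k κ x ^ p)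
          (2 ^ (p - 1)) (S0 ^ p) (fun k => (2:ℝ≥0∞) ^ (ε' * p * (k:ℝ))) ((hAm κ).pow_const p)
          (fun k => (hfm k κ).pow_const p) (fun k => (hgm k κ).pow_const p)
  have hfin : ∫⁻ κ, (∫⁻ x, Phi R0 (M, -κ) G x ^ p) ∂ν < ∞ := by
    refine (lintegral_mono hl).trans_lt ?_
    have hI := hsm_int ν (fun κ => ∫⁻ x, A κ x ^ p) (fun k κ => ∫⁻ x, f k κ x ^ p)
      (fun k κ => ∫⁻ x, g k κ x ^ p) (2 ^ (p - 1)) (S0 ^ p) (fun k => (2:ℝ≥0∞) ^ (ε' * p * (k:ℝ)))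
      hAml hfml hgml
    rw [hI]
    have h2p : (2:ℝ≥0∞) ^ (p - 1) < ∞ :=
      ENNReal.rpow_lt_top_of_nonneg (by linarith) (by norm_num)
    have hsum : ∑' k : ℕ, (2:ℝ≥0∞) ^ (ε' * p * (k:ℝ)) * (2 ^ (p - 1) *
        ((∫⁻ κ, (∫⁻ x, f k κ x ^ p) ∂ν) + ∫⁻ κ, (∫⁻ x, g k κ x ^ p) ∂ν)) < ∞ := by
      refine hxi_sum _ (fun k => ?_) (2 ^ (p - 1) * (2 * ENNReal.ofReal C)) ?_ (δ / 2)
        (by positivity) ?_
      · have hk : 0 ≤ ε' * p * (k:ℝ) := by positivity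
        refine ENNReal.mul_lt_top (ENNReal.rpow_lt_top_of_nonneg hk (by norm_num))
          (ENNReal.mul_lt_top h2p (ENNReal.add_lt_top.2 ⟨?_, ?_⟩))
        · exact hxi_fin n R0 _ _ p hp.le M G hG hb
        · exact hxi_fin n R0 _ _ p hp.le M G hG hb
      · exact ENNReal.mul_lt_top h2p (ENNReal.mul_lt_top (by norm_num) ENNReal.ofReal_lt_top)
      · filter_upwards [hfl, hgl] with k a1 a2
        calc (2:ℝ≥0∞) ^ (ε' * p * (k:ℝ)) * (2 ^ (p - 1) *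
              ((∫⁻ κ, (∫⁻ x, f k κ x ^ p) ∂ν) + ∫⁻ κ, (∫⁻ x, g k κ x ^ p) ∂ν))
            ≤ (2:ℝ≥0∞) ^ (ε' * p * (k:ℝ)) * (2 ^ (p - 1) *
              (ENNReal.ofReal C * (2 : ℝ≥0∞) ^ (-(δ * (k : ℝ))) +
                ENNReal.ofReal C * (2 : ℝ≥0∞) ^ (-(δ * (k : ℝ))))) :=
              mul_le_mul_right (mul_le_mul_right (add_le_add a1 a2) _) _
          _ = (2 ^ (p - 1) * (2 * ENNReal.ofReal C)) *
              ((2:ℝ≥0∞) ^ (ε' * p * (k:ℝ)) * (2 : ℝ≥0∞) ^ (-(δ * (k : ℝ)))) := by ring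
          _ = (2 ^ (p - 1) * (2 * ENNReal.ofReal C)) * (2 : ℝ≥0∞) ^ (-(δ / 2 * (k : ℝ))) := by
              rw [← ENNReal.rpow_add _ _ (by norm_num) (by norm_num)]
              congr 2
              rw [hε']
              field_simp
              ring
    refine ENNReal.mul_lt_top (ENNReal.rpow_lt_top_of_nonneg (by linarith) (by norm_num)) ?_
    refine ENNReal.add_lt_top.2 ⟨hxi_fin n R0 (-1) 1 p hp.le M G hG hb, ENNReal.mul_lt_top ?_ hsum⟩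
    exact ENNReal.rpow_lt_top_of_nonneg hp0.le hS0f.ne
  exact ae_lt_top (hxi_measPhi R0 p G hG M) hfin.ne

end Pool.Agent.AEE
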