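import Pool.Agent.AEE.XM
import Pool.Agent.AEE.XC
import Pool.Agent.AEE.XI

namespace Pool.Agent.AEE

open MeasureTheory Set Pool.Agent.MP_6cbfb8_an Pool.Agent.MST Pool.Agent.AEL
open scoped ENNReal NNReal Real

theorem hxb_sum (n : ℕ) (hn : 3 ≤ n) (s : ℝ) (d : ℝ≥0) (C : ℝ)
    (hd : (n:ℝ) ^ 2 - (n - 2) + s < d) :
    Summable fun k : ℕ => (C * (1 + k) ^ n / ((2:ℝ) ^ k) ^ (n - 2)) / (2:ℝ) ^ (-(s * (k:ℝ))) *
      ((2:ℝ) ^ k) ^ (n ^ 2) * (((2:ℝ) ^ k)⁻¹) ^ (d : ℝ) := by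
  obtain ⟨δ, hδ, hdδ⟩ : ∃ δ : ℝ, 0 < δ ∧ (d : ℝ) = (n:ℝ) ^ 2 - (n - 2) + s + δ :=
    ⟨(d : ℝ) - ((n:ℝ) ^ 2 - (n - 2) + s), by linarith, by ring⟩
  have h2 : (0:ℝ) < 2 := two_pos
  obtain ⟨r, hr⟩ : ∃ r : ℝ, r = (2:ℝ) ^ (-δ) := ⟨_, rfl⟩
  have hr0 : 0 < r := by rw [hr]; positivity
  have hr1 : r < 1 := by
    rw [hr]
    exact Real.rpow_lt_one_of_one_lt_of_neg one_lt_two (by linarith)
  have hs : Summable fun k : ℕ => ((k:ℝ)) ^ n * r ^ k :=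
    summable_pow_mul_geometric_of_norm_lt_one n
      (by rw [Real.norm_eq_abs, abs_of_pos hr0]; exact hr1)
  have hs2 := (((summable_nat_add_iff 1).2 hs).mul_right r⁻¹).mul_left C
  refine hs2.congr ?_
  intro k
  have hcast : (((n - 2 : ℕ)) : ℝ) = (n:ℝ) - 2 := by
    rw [Nat.cast_sub (by omega : 2 ≤ n)]
    norm_num
  have e1 : ((2:ℝ) ^ k) ^ (n - 2) = (2:ℝ) ^ ((k:ℝ) * ((n:ℝ) - 2)) := by
    rw [← pow_mul, ← Real.rpow_natCast, Nat.cast_mul, hcast]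
  have e2 : ((2:ℝ) ^ k) ^ (n ^ 2) = (2:ℝ) ^ ((k:ℝ) * (n:ℝ) ^ 2) := by
    rw [← pow_mul, ← Real.rpow_natCast, Nat.cast_mul, Nat.cast_pow]
  have e3 : (((2:ℝ) ^ k)⁻¹) ^ (d : ℝ) = (2:ℝ) ^ (-(k:ℝ) * (d:ℝ)) := by
    rw [← Real.rpow_natCast, ← Real.rpow_neg h2.le, ← Real.rpow_mul h2.le]
  have e4 : r ^ k = (2:ℝ) ^ (-δ * (k:ℝ)) := by
    rw [hr, ← Real.rpow_natCast, ← Real.rpow_mul h2.le]
  have e5 : (2:ℝ) ^ (-δ * (k:ℝ)) = ((2:ℝ) ^ ((k:ℝ) * ((n:ℝ) - 2)))⁻¹ *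
      ((2:ℝ) ^ (-(s * (k:ℝ))))⁻¹ * (2:ℝ) ^ ((k:ℝ) * (n:ℝ) ^ 2) * (2:ℝ) ^ (-(k:ℝ) * (d:ℝ)) := by
    rw [← Real.rpow_neg h2.le, ← Real.rpow_neg h2.le, ← Real.rpow_add h2, ← Real.rpow_add h2,
      ← Real.rpow_add h2]
    congr 1
    rw [hdδ]
    ring
  have e6 : (((k + 1 : ℕ)) : ℝ) ^ n * r ^ (k + 1) * r⁻¹ = (1 + (k:ℝ)) ^ n * r ^ k := by
    rw [pow_succ r k]
    push_cast
    rw [add_comm (k:ℝ) 1]
    field_simp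
  rw [e6, e4, e5, e1, e2, e3]
  simp only [div_eq_mul_inv]
  ring

theorem hxb_one (n : ℕ) (hn : 3 ≤ n) (p : ℝ) (ε : ℝ) (d : ℝ≥0)
    (hd : (n:ℝ) ^ 2 - (n - 2) + ((4 - p) / (p - 2) + ε) < d) (j : ℕ) (hj : 1 ≤ j) (F : E n → ℂ)
    (hF : Measurable F) (hbF : ∀ w, ‖F w‖ ≤ 1) (K : ℝ) (hK : 0 ≤ K) :
    dimH {M : Mat n | M ∈ mc n K ∧ ∃ᶠ k : ℕ in Filter.atTop,
      M ∈ {M : Mat n | ENNReal.ofReal ((2:ℝ) ^ (-(((4 - p) / (p - 2) + ε) * (k:ℝ)))) <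
        HH (j:ℝ) k M F}} ≤ d := by
  obtain ⟨C, hC, hst⟩ := HH_stab n hn (j:ℝ) (by exact_mod_cast hj) (K + 1) (by linarith)
  choose V hV1 hV2 hV3 using hst F hF hbF
  refine mat_cover n K hK d V hV1
    (fun k => (2:ℝ) ^ (-(((4 - p) / (p - 2) + ε) * (k:ℝ))))
    (fun k => C * (1 + k) ^ n / ((2:ℝ) ^ k) ^ (n - 2))
    (fun k => Real.rpow_pos_of_pos two_pos _) (fun k => by positivity) hV3
    (hxb_sum n hn _ d C hd)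
    (fun k => {M : Mat n | ENNReal.ofReal ((2:ℝ) ^ (-(((4 - p) / (p - 2) + ε) * (k:ℝ)))) <
        HH (j:ℝ) k M F}) ?_
  intro k M hM _ M' hMM'
  exact (le_of_lt hM).trans (hV2 k M M' hMM')

theorem hxb_cj {n : ℕ} {G : E n → ℂ} (hG : Measurable G) : Measurable (cj G) :=
  Complex.continuous_conj.measurable.comp hG

theorem hxb_cj_norm {n : ℕ} {G : E n → ℂ} (hb : ∀ w, ‖G w‖ ≤ 1) : ∀ w, ‖cj G w‖ ≤ 1 := by
  intro w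
  unfold cj
  rw [RCLike.norm_conj]
  exact hb w

/-
ROW XB (0.8 h). For each R0 = j ≥ 1 and K: with σ = (4-p)/(p-2) = 2/(p-2) - 1 choose ε > 0 with n² - (n-2) + σ + ε < d. If M ∈ mc n K is in the set for R0 = j, then by
`fin_of_HH` for G or for cj G: HH j k M G > thr k := 2^(-(σ+ε) k) for infinitely many k (not eventually = frequently not). So the set is in the union of the two sets
{M ∈ mc n K | ∃ᶠ k, M ∈ bad k}, bad k = {M | thr k < HH j k M G}; apply mat_cover with V k of `HH_stab` (with K + 1; choose), B k = C (1+k)^n / (2^k)^(n-2):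
B/thr * (2^k)^(n²) * (2^k)^(-d) = C (1+k)^n 2^(-(d - n² + (n-2) - σ - ε) k) summable. Union over the countably many j (∀ j inside ∀ᵐ: ae_all_iff) and over G, cj G:
dimH_iUnion / dimH_union / dimH_mono.
-/
theorem dim_M (n : ℕ) (hn : 3 ≤ n) (p : ℝ) (hp : 2 < p) (hp4 : p < 4) (d : ℝ≥0)
    (hd : (n:ℝ) ^ 2 - (n - 1) + 2 / (p - 2) < d) (G : E n → ℂ) (hG : Measurable G)
    (hb : ∀ w, ‖G w‖ ≤ 1) (K : ℝ) (hK : 0 ≤ K) :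
    dimH {M : Mat n | M ∈ mc n K ∧ ¬ ∀ᵐ κ ∂(volume.restrict (Icc (1:ℝ) 2)), ∀ j : ℕ, 1 ≤ j →
      ∫⁻ x, Phi (j : ℝ) (M, -κ) G x ^ p < ∞} ≤ d := by
  obtain ⟨ε, hε, hdε⟩ : ∃ ε : ℝ, 0 < ε ∧ (n:ℝ) ^ 2 - (n - 2) + ((4 - p) / (p - 2) + ε) < d := by
    refine ⟨((d : ℝ) - ((n:ℝ) ^ 2 - (n - 1) + 2 / (p - 2))) / 2, by linarith, ?_⟩
    have h1 : (4 - p) / (p - 2) = 2 / (p - 2) - 1 := by
      have h2 : p - 2 ≠ 0 := by linarith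
      field_simp
      ring
    rw [h1]
    linarith
  have hsub : {M : Mat n | M ∈ mc n K ∧ ¬ ∀ᵐ κ ∂(volume.restrict (Icc (1:ℝ) 2)), ∀ j : ℕ, 1 ≤ j →
      ∫⁻ x, Phi (j : ℝ) (M, -κ) G x ^ p < ∞} ⊆
      ⋃ j : ℕ, ({M : Mat n | M ∈ mc n K ∧ ∃ᶠ k : ℕ in Filter.atTop,
        M ∈ {M : Mat n | ENNReal.ofReal ((2:ℝ) ^ (-(((4 - p) / (p - 2) + ε) * (k:ℝ)))) <
          HH (((j + 1 : ℕ)) : ℝ) k M G}} ∪
        {M : Mat n | M ∈ mc n K ∧ ∃ᶠ k : ℕ in Filter.atTop,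
        M ∈ {M : Mat n | ENNReal.ofReal ((2:ℝ) ^ (-(((4 - p) / (p - 2) + ε) * (k:ℝ)))) <
          HH (((j + 1 : ℕ)) : ℝ) k M (cj G)}}) := by
    rintro M ⟨hMK, hM⟩
    by_contra hcon
    apply hM
    rw [ae_all_iff]
    intro j
    by_cases hj : 1 ≤ j
    · obtain ⟨i, rfl⟩ : ∃ i, j = i + 1 := ⟨j - 1, by omega⟩
      have hcon2 : M ∉ {M : Mat n | M ∈ mc n K ∧ ∃ᶠ k : ℕ in Filter.atTop,
        M ∈ {M : Mat n | ENNReal.ofReal ((2:ℝ) ^ (-(((4 - p) / (p - 2) + ε) * (k:ℝ)))) <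
          HH (((i + 1 : ℕ)) : ℝ) k M G}} ∧
        M ∉ {M : Mat n | M ∈ mc n K ∧ ∃ᶠ k : ℕ in Filter.atTop,
        M ∈ {M : Mat n | ENNReal.ofReal ((2:ℝ) ^ (-(((4 - p) / (p - 2) + ε) * (k:ℝ)))) <
          HH (((i + 1 : ℕ)) : ℝ) k M (cj G)}} := by
        constructor
        · intro h
          exact hcon (mem_iUnion.2 ⟨i, Or.inl h⟩)
        · intro h
          exact hcon (mem_iUnion.2 ⟨i, Or.inr h⟩)
      obtain ⟨c1, c2⟩ := hcon2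
      have hR0 : (1:ℝ) ≤ (((i + 1 : ℕ)) : ℝ) := by exact_mod_cast hj
      have g1 : ∀ᶠ k : ℕ in Filter.atTop, HH (((i + 1 : ℕ)) : ℝ) k M G ≤
          ENNReal.ofReal ((2:ℝ) ^ (-(((4 - p) / (p - 2) + ε) * (k:ℝ)))) := by
        by_contra h
        rw [Filter.not_eventually] at h
        exact c1 ⟨hMK, h.mono fun k hk => not_le.1 hk⟩
      have g2 : ∀ᶠ k : ℕ in Filter.atTop, HH (((i + 1 : ℕ)) : ℝ) k M (cj G) ≤
          ENNReal.ofReal ((2:ℝ) ^ (-(((4 - p) / (p - 2) + ε) * (k:ℝ)))) := by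
        by_contra h
        rw [Filter.not_eventually] at h
        exact c2 ⟨hMK, h.mono fun k hk => not_le.1 hk⟩
      exact (fin_of_HH n _ hR0 p ε hp hp4 hε G hG hb M g1 g2).mono fun κ hκ _ => hκ
    · exact Filter.Eventually.of_forall fun κ h => absurd h hj
  refine (dimH_mono hsub).trans ?_
  rw [dimH_iUnion]
  refine iSup_le fun j => ?_
  rw [dimH_union]
  refine max_le ?_ ?_
  · exact hxb_one n hn p ε d hdε (j + 1) (by omega) G hG hb K hK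
  · exact hxb_one n hn p ε d hdε (j + 1) (by omega) (cj G) (hxb_cj hG) (hxb_cj_norm hb) K hK

end Pool.Agent.AEE
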