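import Pool.Agent.AEE.XA

namespace Pool.Agent.AEE

open MeasureTheory Set Pool.Agent.MP_6cbfb8_an Pool.Agent.MST Pool.Agent.AEL
open scoped ENNReal Real

/-- the coefficients of the power series -/
noncomputable def hxe_co (R0 R : ℝ) (k : ℕ) : ℂ :=
  (((-(4 * π * R * R0 ^ 2) : ℝ) : ℂ) * Complex.I) ^ k / (k.factorial : ℂ)

theorem hxe_norm_co (R0 R : ℝ) (hR : 0 ≤ R) (k : ℕ) :
    ‖hxe_co R0 R k‖ = (4 * π * R * R0 ^ 2) ^ k / (k.factorial : ℝ) := by
  unfold hxe_co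
  rw [norm_div, norm_pow, norm_mul, Complex.norm_I, mul_one, Complex.norm_real, Real.norm_eq_abs,
    abs_neg, abs_of_nonneg (by positivity), Complex.norm_natCast]

theorem hxe_exp (z : ℂ) : HasSum (fun k : ℕ => z ^ k / (k.factorial : ℂ)) (Complex.exp z) := by
  rw [Complex.exp_eq_exp_ℂ]
  exact NormedSpace.expSeries_div_hasSum_exp z

theorem hxe_ex_norm (b : ℝ) : ‖ex b‖ = 1 := by
  unfold ex
  rw [Complex.norm_exp_ofReal_mul_I]

theorem hxe_ex_cont (s : ℝ) : Continuous fun τ : ℝ => ex (τ * s) := hba_cont_ex s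

/-- the series for the integral over the frequency variable -/
theorem hxe_ps (R0 R : ℝ) (hR : 1 ≤ R) (v v' ρ : ℝ) (hv : v = v' + R0 ^ 2 * ρ) :
    HasSum (fun k : ℕ => hxe_co R0 R k * (ρ : ℂ) ^ k * psA (pw R k) R (2 * R) v')
      (ps R (2 * R) v) := by
  have hR0' : 0 < R := lt_of_lt_of_le one_pos hR
  set F : ℕ → ℝ → ℂ := fun k τ => hxe_co R0 R k * (ρ : ℂ) ^ k * (pw R k τ * ex (τ * v')) with hF
  have hFz : ∀ k τ, F k τ = (((-(2 * π * (τ * (R0 ^ 2 * ρ))) : ℝ) : ℂ) * Complex.I) ^ k /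
      (k.factorial : ℂ) * ex (τ * v') := by
    intro k τ
    show hxe_co R0 R k * (ρ : ℂ) ^ k * (pw R k τ * ex (τ * v')) = _
    unfold hxe_co pw
    have e1 : (((-(2 * π * (τ * (R0 ^ 2 * ρ))) : ℝ) : ℂ) * Complex.I) =
        (((-(4 * π * R * R0 ^ 2) : ℝ) : ℂ) * Complex.I) * (ρ : ℂ) * (((τ / (2 * R)) : ℝ) : ℂ) := by
      have e2 : (-(2 * π * (τ * (R0 ^ 2 * ρ)))) = (-(4 * π * R * R0 ^ 2)) * ρ * (τ / (2 * R)) := by
        field_simp
        ring
      rw [e2]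
      push_cast
      ring
    rw [e1, mul_pow, mul_pow, Complex.ofReal_pow]
    ring
  have hsum : ∀ τ, HasSum (fun k => F k τ) (ex (τ * v)) := by
    intro τ
    have h1 := (hxe_exp (((-(2 * π * (τ * (R0 ^ 2 * ρ))) : ℝ) : ℂ) * Complex.I)).mul_right
      (ex (τ * v'))
    have e3 : ex (τ * v) = Complex.exp (((-(2 * π * (τ * (R0 ^ 2 * ρ))) : ℝ) : ℂ) * Complex.I) *
        ex (τ * v') := by
      unfold ex
      rw [← Complex.exp_add, hv]
      congr 1
      push_cast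
      ring
    rw [e3]
    simpa only [hFz] using h1
  have hbd : ∀ k τ, τ ∈ Set.uIoc R (2 * R) → ‖F k τ‖ ≤
      (4 * π * R * R0 ^ 2 * |ρ|) ^ k / (k.factorial : ℝ) := by
    intro k τ hτ
    rw [Set.uIoc_of_le (by linarith)] at hτ
    show ‖hxe_co R0 R k * (ρ : ℂ) ^ k * (pw R k τ * ex (τ * v'))‖ ≤ _
    rw [norm_mul, norm_mul, norm_mul, hxe_norm_co R0 R hR0'.le, hxe_ex_norm, mul_one, norm_pow,
      Complex.norm_real, Real.norm_eq_abs]
    have h1 : ‖pw R k τ‖ ≤ 1 := norm_pw_le R hR0' k τ ⟨hτ.1.le, hτ.2⟩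
    calc (4 * π * R * R0 ^ 2) ^ k / (k.factorial : ℝ) * |ρ| ^ k * ‖pw R k τ‖
        ≤ (4 * π * R * R0 ^ 2) ^ k / (k.factorial : ℝ) * |ρ| ^ k * 1 := by gcongr
      _ = (4 * π * R * R0 ^ 2 * |ρ|) ^ k / (k.factorial : ℝ) := by
          rw [mul_pow]
          ring
  have h2 := intervalIntegral.hasSum_integral_of_dominated_convergence (μ := volume) (a := R)
    (b := 2 * R) (F := F) (f := fun τ => ex (τ * v))
    (fun k _ => (4 * π * R * R0 ^ 2 * |ρ|) ^ k / (k.factorial : ℝ))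
    (fun k => ?_) (fun k => Filter.Eventually.of_forall fun τ hτ => hbd k τ hτ)
    (Filter.Eventually.of_forall fun τ _ => Real.summable_pow_div_factorial _)
    intervalIntegrable_const (Filter.Eventually.of_forall fun τ _ => hsum τ)
  · have e4 : ∀ k, ∫ τ in R..(2 * R), F k τ =
        hxe_co R0 R k * (ρ : ℂ) ^ k * psA (pw R k) R (2 * R) v' := by
      intro k
      unfold psA
      exact intervalIntegral.integral_const_mul _ _
    simpa only [e4, ps] using h2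
  · have hc : Continuous (F k) :=
      continuous_const.mul ((continuous_pw R k).mul (hxe_ex_cont v'))
    exact hc.aestronglyMeasurable

/-- the linear form in the difference of the matrices -/
noncomputable def hxe_rho {n : ℕ} (R0 : ℝ) (D : Fin n × Fin n → ℝ) (w : E n) : ℝ :=
  ∑ q : Fin n × Fin n, D q * (w q.1 * w q.2 / R0 ^ 2)

theorem hxe_rho_cont {n : ℕ} (R0 : ℝ) (D : Fin n × Fin n → ℝ) : Continuous (hxe_rho R0 D) := by
  unfold hxe_rho
  fun_prop

theorem hxe_u_le {n : ℕ} (R0 : ℝ) (hR0 : 1 ≤ R0) (w : E n) (hw : ‖w‖ ≤ R0) (i j : Fin n) :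
    |w i * w j / R0 ^ 2| ≤ 1 := by
  have h0 : 0 < R0 := lt_of_lt_of_le one_pos hR0
  have h1 : |w i| ≤ R0 := (PiLp.norm_apply_le w i).trans hw
  have h2 : |w j| ≤ R0 := (PiLp.norm_apply_le w j).trans hw
  rw [abs_div, abs_mul, abs_of_pos (by positivity : 0 < R0 ^ 2), div_le_one (by positivity)]
  calc |w i| * |w j| ≤ R0 * R0 := mul_le_mul h1 h2 (abs_nonneg _) h0.le
    _ = R0 ^ 2 := by ring

theorem hxe_rho_le {n : ℕ} (R0 R : ℝ) (hR0 : 1 ≤ R0) (hR : 1 ≤ R) (D : Fin n × Fin n → ℝ)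
    (hD : ∀ q, |D q| ≤ 1 / R) (w : E n) (hw : ‖w‖ ≤ R0) :
    |hxe_rho R0 D w| ≤ (n : ℝ) ^ 2 / R := by
  unfold hxe_rho
  refine (Finset.abs_sum_le_sum_abs _ _).trans ?_
  calc ∑ q : Fin n × Fin n, |D q * (w q.1 * w q.2 / R0 ^ 2)| ≤ ∑ _q : Fin n × Fin n, 1 / R := by
        refine Finset.sum_le_sum fun q _ => ?_
        rw [abs_mul]
        calc |D q| * |w q.1 * w q.2 / R0 ^ 2| ≤ (1 / R) * 1 :=
              mul_le_mul (hD q) (hxe_u_le R0 hR0 w hw q.1 q.2) (abs_nonneg _) (by positivity)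
          _ = 1 / R := mul_one _
    _ = (n : ℝ) ^ 2 / R := by
        rw [Finset.sum_const, Finset.card_univ, Fintype.card_prod, Fintype.card_fin, nsmul_eq_mul]
        push_cast
        ring

theorem hxe_qf {n : ℕ} (R0 : ℝ) (hR0 : 1 ≤ R0) (M M' : Mat n) (c : ℝ) (w : E n) :
    qf M w + c = (qf M' w + c) + R0 ^ 2 *
      hxe_rho R0 (fun q => M q.1 q.2 - M' q.1 q.2) w := by
  have h0 : R0 ≠ 0 := (lt_of_lt_of_le one_pos hR0).ne'
  unfold hxe_rho qf
  rw [Fintype.sum_prod_type, Finset.mul_sum]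
  have e1 : ∑ i, ∑ j, M i j * (w i * w j) = (∑ i, ∑ j, M' i j * (w i * w j)) +
      ∑ i, R0 ^ 2 * ∑ j, (M i j - M' i j) * (w i * w j / R0 ^ 2) := by
    rw [← Finset.sum_add_distrib]
    refine Finset.sum_congr rfl fun i _ => ?_
    rw [Finset.mul_sum, ← Finset.sum_add_distrib]
    refine Finset.sum_congr rfl fun j _ => ?_
    field_simp
    ring
  rw [e1]
  ring

/-- integrability of the pieces -/
theorem hxe_bd {n : ℕ} (R0 R : ℝ) (hR : 1 ≤ R) (k : ℕ) (l : Mat n × ℝ) (H : E n → ℂ)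
    (hb : ∀ w, ‖H w‖ ≤ 1) (x w : E n) :
    ‖H w * amA (pw R k) R0 R (2 * R) l w * ex (inner ℝ w x)‖ ≤
      (Metric.closedBall (0 : E n) R0).indicator (fun _ => R) w := by
  have hR' : 0 < R := lt_of_lt_of_le one_pos hR
  rw [norm_mul, hxe_ex_norm, mul_one, norm_mul]
  by_cases hw : ‖w‖ ≤ R0
  · rw [indicator_of_mem (mem_closedBall_zero_iff.2 hw)]
    have h1 := norm_amA_le (pw R k) R0 R (2 * R) (by linarith)
      (fun τ hτ => norm_pw_le R hR' k τ hτ) l w
    calc ‖H w‖ * ‖amA (pw R k) R0 R (2 * R) l w‖ ≤ 1 * (2 * R - R) :=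
          mul_le_mul (hb w) h1 (norm_nonneg _) zero_le_one
      _ = R := by ring
  · rw [amA_zero _ R0 _ _ l w (not_le.1 hw), norm_zero, mul_zero]
    exact indicator_nonneg (fun _ _ => hR'.le) w

theorem hxe_meas {n : ℕ} (R0 R : ℝ) (k : ℕ) (l : Mat n × ℝ) (H : E n → ℂ) (hH : Measurable H)
    (x : E n) : Measurable fun w : E n =>
      H w * amA (pw R k) R0 R (2 * R) l w * ex (inner ℝ w x) := by
  have h1 : Measurable fun w : E n => amA (pw R k) R0 R (2 * R) l w :=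
    (measurable_amA (pw R k) (continuous_pw R k) R0 R (2 * R)).of_uncurry_left (x := l)
  have h2 : Measurable fun w : E n => ex (inner ℝ w x) :=
    hkf_cont_ex.measurable.comp (measurable_id.inner measurable_const)
  exact (hH.mul h1).mul h2

theorem hxe_int {n : ℕ} (R0 R : ℝ) (hR : 1 ≤ R) (k : ℕ) (l : Mat n × ℝ) (H : E n → ℂ)
    (hH : Measurable H) (hb : ∀ w, ‖H w‖ ≤ 1) (x : E n) :
    Integrable fun w : E n => H w * amA (pw R k) R0 R (2 * R) l w * ex (inner ℝ w x) :=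
  (hl2_ind R0 R).mono' (hxe_meas R0 R k l H hH x).aestronglyMeasurable
    (Filter.Eventually.of_forall fun w => hxe_bd R0 R hR k l H hb x w)

/-- the term of order `k` -/
theorem hxe_term {n : ℕ} (R0 R : ℝ) (hR0 : 1 ≤ R0) (hR : 1 ≤ R) (G : E n → ℂ) (hG : Measurable G)
    (hb : ∀ w, ‖G w‖ ≤ 1) (D : Fin n × Fin n → ℝ) (M' : Mat n) (c : ℝ) (x : E n) (k : ℕ) :
    ∫ w : E n, (hxe_co R0 R k * (hxe_rho R0 D w : ℂ) ^ k) *
      (G w * amA (pw R k) R0 R (2 * R) (M', c) w * ex (inner ℝ w x)) =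
    ∑ s : Fin k → Fin n × Fin n, (hxe_co R0 R k * ((∏ r, D (s r) : ℝ) : ℂ)) *
      opA (pw R k) R0 R (2 * R) (M', c) (Gs R0 G k s) x := by
  have hR0' : 0 < R0 := lt_of_lt_of_le one_pos hR0
  have h1 : ∀ w : E n, (hxe_co R0 R k * (hxe_rho R0 D w : ℂ) ^ k) *
      (G w * amA (pw R k) R0 R (2 * R) (M', c) w * ex (inner ℝ w x)) =
      ∑ s : Fin k → Fin n × Fin n, (hxe_co R0 R k * ((∏ r, D (s r) : ℝ) : ℂ)) *
        (Gs R0 G k s w * amA (pw R k) R0 R (2 * R) (M', c) w * ex (inner ℝ w x)) := by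
    intro w
    by_cases hw : ‖w‖ ≤ R0
    · have e1 : (hxe_rho R0 D w : ℂ) ^ k = ∑ s : Fin k → Fin n × Fin n,
          ((∏ r, D (s r) : ℝ) : ℂ) * ((∏ r, (w (s r).1 * w (s r).2 / R0 ^ 2) : ℝ) : ℂ) := by
        rw [← Complex.ofReal_pow]
        unfold hxe_rho
        rw [Fintype.sum_pow, Complex.ofReal_sum]
        refine Finset.sum_congr rfl fun s _ => ?_
        rw [Finset.prod_mul_distrib, Complex.ofReal_mul]
      rw [e1, Finset.mul_sum, Finset.sum_mul]
      refine Finset.sum_congr rfl fun s _ => ?_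
      unfold Gs
      rw [if_pos hw]
      ring
    · have e2 : amA (pw R k) R0 R (2 * R) (M', c) w = 0 := amA_zero _ R0 _ _ _ w (not_le.1 hw)
      simp only [e2, mul_zero, zero_mul, Finset.sum_const_zero]
  simp only [h1]
  rw [integral_finsetSum]
  · refine Finset.sum_congr rfl fun s _ => ?_
    rw [integral_const_mul]
    rfl
  · intro s _
    exact (hxe_int R0 R hR k (M', c) (Gs R0 G k s) (measurable_Gs R0 G hG k s)
      (fun w => norm_Gs_le R0 hR0' G hb k s w) x).const_mul _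

/-- the power series of the operator -/
theorem hxe_hasSum {n : ℕ} (R0 R : ℝ) (hR0 : 1 ≤ R0) (hR : 1 ≤ R) (G : E n → ℂ)
    (hG : Measurable G) (hb : ∀ w, ‖G w‖ ≤ 1) (M M' : Mat n)
    (hM : ∀ i j, |M i j - M' i j| ≤ 1 / R) (c : ℝ) (x : E n) :
    HasSum (fun k : ℕ => ∫ w : E n, (hxe_co R0 R k *
        (hxe_rho R0 (fun q => M q.1 q.2 - M' q.1 q.2) w : ℂ) ^ k) *
      (G w * amA (pw R k) R0 R (2 * R) (M', c) w * ex (inner ℝ w x)))
      (op R0 R (2 * R) (M, c) G x) := by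
  have hR' : 0 < R := lt_of_lt_of_le one_pos hR
  have hR0' : 0 < R0 := lt_of_lt_of_le one_pos hR0
  set D : Fin n × Fin n → ℝ := fun q => M q.1 q.2 - M' q.1 q.2 with hD
  set F : ℕ → E n → ℂ := fun k w => (hxe_co R0 R k * (hxe_rho R0 D w : ℂ) ^ k) *
    (G w * amA (pw R k) R0 R (2 * R) (M', c) w * ex (inner ℝ w x)) with hF
  set B : ℕ → ℝ := fun k => (4 * π * R0 ^ 2 * (n : ℝ) ^ 2) ^ k / (k.factorial : ℝ) with hB
  have hBs : Summable B := Real.summable_pow_div_factorial _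
  have hB0 : ∀ k, 0 ≤ B k := fun k => by
    show 0 ≤ (4 * π * R0 ^ 2 * (n : ℝ) ^ 2) ^ k / (k.factorial : ℝ)
    positivity
  unfold AEL.op
  refine hasSum_integral_of_dominated_convergence (F := F)
    (fun k w => B k * (Metric.closedBall (0 : E n) R0).indicator (fun _ => R) w)
    (fun k => ?_) (fun k => Filter.Eventually.of_forall fun w => ?_)
    (Filter.Eventually.of_forall fun w => ?_) ?_ (Filter.Eventually.of_forall fun w => ?_)
  · have h1 : Measurable fun w : E n => hxe_co R0 R k * (hxe_rho R0 D w : ℂ) ^ k :=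
      ((Complex.measurable_ofReal.comp (hxe_rho_cont R0 D).measurable).pow_const k).const_mul _
    exact (h1.mul (hxe_meas R0 R k (M', c) G hG x)).aestronglyMeasurable
  · show ‖(hxe_co R0 R k * (hxe_rho R0 D w : ℂ) ^ k) *
      (G w * amA (pw R k) R0 R (2 * R) (M', c) w * ex (inner ℝ w x))‖ ≤ _
    rw [norm_mul]
    have h2 := hxe_bd R0 R hR k (M', c) G hb x w
    by_cases hw : ‖w‖ ≤ R0
    · have h1 : ‖hxe_co R0 R k * (hxe_rho R0 D w : ℂ) ^ k‖ ≤ B k := by
        rw [norm_mul, norm_pow, hxe_norm_co R0 R hR'.le, Complex.norm_real, Real.norm_eq_abs]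
        have h3 := hxe_rho_le R0 R hR0 hR D (fun q => hM q.1 q.2) w hw
        calc (4 * π * R * R0 ^ 2) ^ k / (k.factorial : ℝ) * |hxe_rho R0 D w| ^ k
            ≤ (4 * π * R * R0 ^ 2) ^ k / (k.factorial : ℝ) * ((n : ℝ) ^ 2 / R) ^ k := by gcongr
          _ = B k := by
              show _ = (4 * π * R0 ^ 2 * (n : ℝ) ^ 2) ^ k / (k.factorial : ℝ)
              rw [div_mul_eq_mul_div, ← mul_pow]
              congr 2
              field_simp
      exact mul_le_mul h1 h2 (norm_nonneg _) (hB0 k)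
    · have e2 : amA (pw R k) R0 R (2 * R) (M', c) w = 0 := amA_zero _ R0 _ _ _ w (not_le.1 hw)
      rw [e2, mul_zero, zero_mul, norm_zero, mul_zero]
      exact mul_nonneg (hB0 k) (indicator_nonneg (fun _ _ => hR'.le) w)
  · exact hBs.mul_right _
  · simp only [tsum_mul_right]
    exact (hl2_ind R0 R).const_mul _
  · show HasSum (fun k => (hxe_co R0 R k * (hxe_rho R0 D w : ℂ) ^ k) *
      (G w * amA (pw R k) R0 R (2 * R) (M', c) w * ex (inner ℝ w x)))
      (G w * am R0 R (2 * R) (M, c) w * ex (inner ℝ w x))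
    by_cases hw : ‖w‖ ≤ R0
    · have h1 := hxe_ps R0 R hR (qf M w + c) (qf M' w + c) (hxe_rho R0 D w)
        (hxe_qf R0 hR0 M M' c w)
      have h2 := h1.mul_left (G w * ex (inner ℝ w x))
      unfold AEL.am amA
      simp only [if_pos hw]
      have e3 : (G w * ex (inner ℝ w x)) * ps R (2 * R) (qf M w + c) =
          G w * ps R (2 * R) (qf M w + c) * ex (inner ℝ w x) := by ring
      rw [e3] at h2
      refine h2.congr_fun ?_
      intro k
      ring
    · unfold AEL.am amA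
      simp only [if_neg hw, mul_zero, zero_mul]
      exact hasSum_zero

/-
ROW XE (1.2 h). Power series in the change of the quadratic form. ex a = exp(-2πi a). For ‖w‖ ≤ R0, τ ∈ [R, 2R], D = M - M' (|D i j| ≤ 1/R):
qf M w + c = (qf M' w + c) + qf D w (qf is linear in the matrix), ex (τ (qf M w + c)) = ex (τ (qf M' w + c)) * Σ_k (-2πi τ qf D w)^k / k!, and with
u_ij = w_i w_j / R0² (|u_ij| ≤ 1):  τ qf D w = (2 R R0²) (τ/(2R)) Σ_ij D_ij u_ij,  (Σ_ij D_ij u_ij)^k = Σ_{s : Fin k → Fin n × Fin n} Π_r D_(s r) u_(s r)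
(Finset.prod_univ_sum / Fintype.piFinset_univ; Finset.prod_const; ∑ i, ∑ j = ∑ over the product, Fintype.sum_prod_type). So
 ps R (2R) (qf M w + c) = Σ_k coef_k Σ_s (Π_r D_(s r)) (Π_r u_(s r)) psA (pw R k) R (2R) (qf M' w + c),  |coef_k| = (4π R R0²)^k / k!,
 (interval integral and the series: intervalIntegral.hasSum_integral_of_summable_norm, terms bounded by (4π R0² n²)^k / k!: continuous functions of τ), and then
 op R0 R (2R) (M, c) G x = Σ_k coef_k Σ_s (Π_r D_(s r)) opA (pw R k) R0 R (2R) (M', c) (Gs R0 G k s) x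
 (integral over w: hasSum_integral_of_summable_norm or integral_tsum; all integrands are supported in the ball closedBall 0 R0 of finite volume and bounded by
 const * (4π R0² n²)^k / k!). Norms: |coef_k Π_r D_(s r)| ≤ (4π R R0²)^k / k! * R^(-k) = (4π R0²)^k / k!; enorm_tsum_le_tsum_enorm, enorm_sum_le.
-/
theorem op_expand {n : ℕ} (R0 R : ℝ) (hR0 : 1 ≤ R0) (hR : 1 ≤ R) (G : E n → ℂ) (hG : Measurable G)
    (hb : ∀ w, ‖G w‖ ≤ 1) (M M' : Mat n) (hM : ∀ i j, |M i j - M' i j| ≤ 1 / R) (c : ℝ) (x : E n) :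
    ‖op R0 R (2 * R) (M, c) G x‖ₑ ≤
      ∑' k : ℕ, ENNReal.ofReal ((4 * π * R0 ^ 2) ^ k / (k.factorial : ℝ)) *
        ∑ s : Fin k → Fin n × Fin n,
          ‖opA (pw R k) R0 R (2 * R) (M', c) (Gs R0 G k s) x‖ₑ := by
  have hR' : 0 < R := lt_of_lt_of_le one_pos hR
  have h1 := hxe_hasSum R0 R hR0 hR G hG hb M M' hM c x
  rw [← h1.tsum_eq]
  refine enorm_tsum_le_tsum_enorm.trans (ENNReal.tsum_le_tsum fun k => ?_)
  rw [hxe_term R0 R hR0 hR G hG hb, Finset.mul_sum]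
  refine (enorm_sum_le _ _).trans (Finset.sum_le_sum fun s _ => ?_)
  rw [enorm_mul]
  refine mul_le_mul_left ?_ _
  rw [← ofReal_norm]
  refine ENNReal.ofReal_le_ofReal ?_
  rw [norm_mul, hxe_norm_co R0 R hR'.le, Complex.norm_real, Real.norm_eq_abs, Finset.abs_prod]
  have h2 : ∏ r : Fin k, |M (s r).1 (s r).2 - M' (s r).1 (s r).2| ≤ (1 / R) ^ k := by
    calc ∏ r : Fin k, |M (s r).1 (s r).2 - M' (s r).1 (s r).2| ≤ ∏ _r : Fin k, 1 / R :=
          Finset.prod_le_prod (fun r _ => abs_nonneg _) fun r _ => hM _ _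
      _ = (1 / R) ^ k := by rw [Finset.prod_const, Finset.card_univ, Fintype.card_fin]
  calc (4 * π * R * R0 ^ 2) ^ k / (k.factorial : ℝ) *
        ∏ r : Fin k, |M (s r).1 (s r).2 - M' (s r).1 (s r).2|
      ≤ (4 * π * R * R0 ^ 2) ^ k / (k.factorial : ℝ) * (1 / R) ^ k := by gcongr
    _ = (4 * π * R0 ^ 2) ^ k / (k.factorial : ℝ) := by
        rw [div_mul_eq_mul_div, ← mul_pow]
        congr 2
        field_simp

end Pool.Agent.AEE
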