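import Pool.Agent.AEE.Defs

namespace Pool.Agent.AEE

open MeasureTheory Set Pool.Agent.MP_6cbfb8_an Pool.Agent.MST Pool.Agent.AEL
open scoped ENNReal Real

/-
ROW XH (0.5 h). `fixed_fin` (Pool.Agent.AEL.D5) for every R0 = j (ae_all_iff), restricted to [1, 2] (ae_restrict_of_ae): for a.e. κ in [1,2] and all j ≥ 1 the integral of
‖extn (fun x => cutG j G (mv A (√κ • x)))‖^p is finite. For this κ choose j ≥ 1 with ‖mv A (√κ • x)‖ ≤ j for all x in the unit sphere (cf. ht2_cut, T2.lean, which gives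
exactly ∃ k, 1 ≤ k ∧ ∀ F, ... for √κ): then cutG j G (mv A (√κ • x)) = G (mv A (√κ • x)) on the sphere, and extn only uses values on the sphere.
-/
theorem ident {n : ℕ} (hn : 3 ≤ n) (M A X : Mat n) (hq : ∀ y, qf M y = ‖mv X y‖ ^ 2)
    (h1 : ∀ y, mv A (mv X y) = y) (h2 : ∀ y, mv X (mv A y) = y) (p : ℝ) (hp : 0 < p)
    (G : E n → ℂ) (hG : Measurable G) (hb : ∀ w, ‖G w‖ ≤ 1)
    (h : ∀ᵐ κ ∂(volume.restrict (Icc (1:ℝ) 2)), ∀ j : ℕ, 1 ≤ j →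
      ∫⁻ x, Phi (j : ℝ) (M, -κ) G x ^ p < ∞) :
    ∀ᵐ κ ∂(volume.restrict (Icc (1:ℝ) 2)),
      ∫⁻ ξ, ‖extn (fun x => G (mv A (√κ • x))) ξ‖ₑ ^ p < ∞ := by
  have h3 : ∀ᵐ κ : ℝ, ∀ j : ℕ, 0 < κ → ∫⁻ x, Phi (j : ℝ) (M, -κ) G x ^ p < ∞ →
      ∫⁻ ξ, ‖extn (fun x => cutG (j : ℝ) G (mv A (√κ • x))) ξ‖ₑ ^ p < ∞ := by
    rw [ae_all_iff]
    intro k
    exact fixed_fin hn M A X hq h1 h2 (k : ℝ) p hp G hG hb
  have h4 := ae_restrict_of_ae (s := Icc (1:ℝ) 2) h3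
  filter_upwards [h, h4, ae_restrict_mem measurableSet_Icc] with κ hκ hκ3 hmem
  have h0 : 0 < κ := lt_of_lt_of_le one_pos hmem.1
  obtain ⟨k, hk1, hk⟩ := ht2_cut A κ
  have h5 := hκ3 k h0 (hκ k hk1)
  rwa [hk] at h5

end Pool.Agent.AEE
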