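import Pool.Agent.AEE.XP
import Mathlib.Topology.MetricSpace.HausdorffDimension

namespace Pool.Agent.AEE

open MeasureTheory Set Pool.Agent.MP_6cbfb8_an Pool.Agent.MST Pool.Agent.AEL
open scoped ENNReal NNReal Real

theorem hxt_mv {n : ℕ} (A X : Mat n) (h : Matrix.of A * Matrix.of X = 1) (y : E n) :
    mv A (mv X y) = y := by
  ext i
  have h1 : ∀ k, ∑ j, A i j * X j k = if i = k then 1 else 0 := by
    intro k
    have := congrFun (congrFun h i) k
    rw [Matrix.mul_apply, Matrix.one_apply] at this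
    exact this
  change ∑ j, A i j * (∑ k, X j k * y k) = y i
  simp only [Finset.mul_sum]
  rw [Finset.sum_comm]
  have h2 : ∀ k, ∑ j, A i j * (X j k * y k) = (if i = k then 1 else 0) * y k := by
    intro k
    rw [← h1 k, Finset.sum_mul]
    exact Finset.sum_congr rfl fun j _ => by ring
  rw [Finset.sum_congr rfl fun k _ => h2 k]
  simp

theorem hxt_det {n : ℕ} {X0 : Mat n} {g : Mat n → Matrix (Fin n) (Fin n) ℝ}
    (hg : ∀ i j, ContDiffAt ℝ 1 (fun X => g X i j) X0) :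
    ContDiffAt ℝ 1 (fun X => (g X).det) X0 := by
  simp only [Matrix.det_apply']
  apply ContDiffAt.sum
  intro σ _
  apply ContDiffAt.mul contDiffAt_const
  apply contDiffAt_prod
  intro i _
  exact hg _ _

theorem hxt_entry {n : ℕ} (X0 : Mat n) (i j : Fin n) :
    ContDiffAt ℝ 1 (fun X : Mat n => (Matrix.of X) i j) X0 := by
  have h : ContDiff ℝ 1 (fun X : Mat n => X i j) := by fun_prop
  exact h.contDiffAt

/-- The inverse is `C^1` near an invertible matrix. -/
theorem hxt_inv {n : ℕ} (X0 : Mat n) (h0 : (Matrix.of X0).det ≠ 0) :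
    ContDiffAt ℝ 1 (fun X : Mat n => (fun i j => (Matrix.of X)⁻¹ i j : Mat n)) X0 := by
  rw [contDiffAt_pi]
  intro i
  rw [contDiffAt_pi]
  intro j
  have h1 : ∀ X : Mat n, (Matrix.of X)⁻¹ i j = ((Matrix.of X).det)⁻¹ *
      ((Matrix.of X).updateRow j (Pi.single i 1)).det := by
    intro X
    rw [Matrix.inv_def, Matrix.smul_apply, Ring.inverse_eq_inv', smul_eq_mul,
      Matrix.adjugate_apply]
  simp only [h1]
  apply ContDiffAt.mul
  · exact ContDiffAt.inv (hxt_det (fun a b => hxt_entry X0 a b)) h0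
  · apply hxt_det
    intro a b
    by_cases hab : a = j
    · subst hab
      simp only [Matrix.updateRow_self]
      exact contDiffAt_const
    · simp only [Matrix.updateRow_ne hab]
      exact hxt_entry X0 a b

theorem hxt_bound {n : ℕ} (X0 : Mat n) : ∃ K : ℕ, ∀ X ∈ Metric.ball X0 1, Psi X0 X ∈ mc n K := by
  obtain ⟨B, hB⟩ : ∃ B, B = ‖X0‖ + 1 := ⟨_, rfl⟩
  have hB0 : 0 ≤ B := by rw [hB]; positivity
  obtain ⟨K, hK⟩ := exists_nat_ge (3 * (n * (B * B)))
  refine ⟨K, fun X hX i j => ?_⟩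
  have h0 : ∀ i j, |X0 i j| ≤ B := by
    intro i j
    have h1 : ‖X0 i j‖ ≤ ‖X0 i‖ := norm_le_pi_norm _ _
    have h2 : ‖X0 i‖ ≤ ‖X0‖ := norm_le_pi_norm _ _
    rw [Real.norm_eq_abs] at h1
    linarith
  have h1 : ∀ i j, |X i j| ≤ B := by
    intro i j
    have h1 : ‖X i j‖ ≤ ‖X i‖ := norm_le_pi_norm _ _
    have h2 : ‖X i‖ ≤ ‖X‖ := norm_le_pi_norm _ _
    have h3 : ‖X‖ ≤ ‖X0‖ + ‖X - X0‖ := by
      have := norm_add_le X0 (X - X0)
      rwa [add_sub_cancel] at this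
    rw [Metric.mem_ball, dist_eq_norm] at hX
    rw [Real.norm_eq_abs] at h1
    linarith
  have key : ∀ Y Z : Mat n, (∀ i j, |Y i j| ≤ B) → (∀ i j, |Z i j| ≤ B) →
      |∑ k, Y k i * Z k j| ≤ n * (B * B) := by
    intro Y Z hY hZ
    refine (Finset.abs_sum_le_sum_abs _ _).trans ?_
    have : ∑ k : Fin n, |Y k i * Z k j| ≤ ∑ _k : Fin n, B * B := by
      apply Finset.sum_le_sum
      intro k _
      rw [abs_mul]
      exact mul_le_mul (hY _ _) (hZ _ _) (abs_nonneg _) hB0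
    rw [Finset.sum_const, Finset.card_univ, Fintype.card_fin, nsmul_eq_mul] at this
    exact this
  have a1 := abs_le.1 (key X X h1 h1)
  have a2 := abs_le.1 (key X0 X h0 h1)
  have a3 := abs_le.1 (key X X0 h1 h0)
  refine le_trans ?_ hK
  unfold Psi
  rw [abs_le]
  constructor <;> linarith

/-
ROW XT (1.2 h). Let Z = {X : Mat n | ∃ A, A, X inverse to each other and P A}. (1) dimH Z ≤ d: the open sets U of `psi_local` for X0 ∈ Z cover Z, countably many suffice
(Mat n is second countable; e.g. TopologicalSpace.countable_cover_nhdsWithin, or use `dimH_of...`: bsupr_limsup_dimH / exists_mem_nhdsWithin_lt_dimH_of_lt_dimH: it is enough that every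
X0 ∈ Z has a neighbourhood t in Z with dimH t ≤ d); replace U by a bounded one, then Psi X0 maps U into some mc n K, K : ℕ. For X ∈ Z ∩ U: M = Psi X0 X is in the set of the
hypothesis h K (qf_Psi, witness A, X). So Z ∩ U ⊆ coe '' (f ⁻¹' s), f = restriction of Psi X0 to U, s = the set of h K, f is AntilipschitzWith C: AntilipschitzWith.dimH_preimage_le,
Isometry.dimH_image for the coercion. (2) {A | det ≠ 0 ∧ P A} is the image of Z under X ↦ X⁻¹ (entries of (Matrix.of X)⁻¹ = (det)⁻¹ • adjugate: C^1 near every X with det ≠ 0,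
ContDiffAt.exists_lipschitzOnWith), dimH_image_le_of_locally_lipschitzOn. From (Matrix.of A).det ≠ 0 the inverse X with mv A (mv X y) = y, mv X (mv A y) = y:
Matrix.mul_nonsing_inv, Matrix.nonsing_inv_mul, mv is Matrix.mulVec.
-/
theorem transfer_dim (n : ℕ) (P : Mat n → Prop) (d : ℝ≥0∞)
    (h : ∀ K : ℕ, dimH {M : Mat n | M ∈ mc n K ∧ ∃ A X : Mat n, (∀ y, mv A (mv X y) = y) ∧
      (∀ y, mv X (mv A y) = y) ∧ (∀ y, qf M y = ‖mv X y‖ ^ 2) ∧ P A} ≤ d) :
    dimH {A : Mat n | (Matrix.of A).det ≠ 0 ∧ P A} ≤ d := by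
  classical
  obtain ⟨Z, hZ⟩ : ∃ Z : Set (Mat n), Z = {X : Mat n | (Matrix.of X).det ≠ 0 ∧
      ∃ A : Mat n, (∀ y, mv A (mv X y) = y) ∧ (∀ y, mv X (mv A y) = y) ∧ P A} := ⟨_, rfl⟩
  have hZd : dimH Z ≤ d := by
    by_contra hcon
    push Not at hcon
    obtain ⟨X0, hX0, ht⟩ := exists_mem_nhdsWithin_lt_dimH_of_lt_dimH hcon
    rw [hZ] at hX0
    obtain ⟨hdet, A0, h1, h2, _⟩ := hX0
    obtain ⟨U, hU, hXU, C, hC⟩ := psi_local X0 A0 h1 h2
    obtain ⟨K, hK⟩ := hxt_bound X0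
    have hmem : (U ∩ Metric.ball X0 1) ∩ Z ∈ nhdsWithin X0 Z := by
      apply Filter.inter_mem _ self_mem_nhdsWithin
      exact mem_nhdsWithin_of_mem_nhds
        ((hU.inter Metric.isOpen_ball).mem_nhds ⟨hXU, Metric.mem_ball_self one_pos⟩)
    have h3 := ht _ hmem
    obtain ⟨t, htt⟩ : ∃ t : Set (Mat n), t = (U ∩ Metric.ball X0 1) ∩ Z := ⟨_, rfl⟩
    rw [← htt] at h3
    have hmt : ∀ X ∈ t, X ∈ (U ∩ Metric.ball X0 1) ∩ Z := by
      intro X hX
      rw [← htt]
      exact hX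
    have hf : AntilipschitzWith C (fun X : t => Psi X0 (X : Mat n)) := by
      apply AntilipschitzWith.of_le_mul_dist
      intro X X'
      have hX := hmt _ X.2
      have hX' := hmt _ X'.2
      exact hC _ hX.1.1 _ hX'.1.1
    have h4 := hf.dimH_preimage_le {M : Mat n | M ∈ mc n K ∧ ∃ A X : Mat n,
      (∀ y, mv A (mv X y) = y) ∧ (∀ y, mv X (mv A y) = y) ∧
      (∀ y, qf M y = ‖mv X y‖ ^ 2) ∧ P A}
    have h5 : (univ : Set t) ⊆ (fun X : t => Psi X0 (X : Mat n)) ⁻¹' {M : Mat n | M ∈ mc n K ∧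
      ∃ A X : Mat n, (∀ y, mv A (mv X y) = y) ∧ (∀ y, mv X (mv A y) = y) ∧
      (∀ y, qf M y = ‖mv X y‖ ^ 2) ∧ P A} := by
      intro X _
      have hX := hmt _ X.2
      rw [hZ] at hX
      obtain ⟨⟨_, hXb⟩, _, A, k1, k2, k3⟩ := hX
      exact ⟨hK _ hXb, A, X, k1, k2, fun y => qf_Psi X0 X y, k3⟩
    have h6 : dimH t = dimH (univ : Set t) := by
      have := (isometry_subtype_coe (s := t)).dimH_image univ
      rwa [image_univ, Subtype.range_coe] at this
    rw [h6] at h3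
    exact absurd (((dimH_mono h5).trans h4).trans (h K)) (not_le.2 h3)
  refine le_trans ?_ hZd
  have hsub : {A : Mat n | (Matrix.of A).det ≠ 0 ∧ P A} ⊆
      (fun X : Mat n => (fun i j => (Matrix.of X)⁻¹ i j : Mat n)) '' Z := by
    rintro A ⟨hA, hPA⟩
    have hu : IsUnit (Matrix.of A).det := isUnit_iff_ne_zero.2 hA
    refine ⟨fun i j => (Matrix.of A)⁻¹ i j, ?_, ?_⟩
    · rw [hZ]
      have e : Matrix.of (fun i j => (Matrix.of A)⁻¹ i j) = (Matrix.of A)⁻¹ := rfl
      refine ⟨?_, A, ?_, ?_, hPA⟩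
      · rw [e, Matrix.det_nonsing_inv, Ring.inverse_eq_inv']
        exact inv_ne_zero hA
      · exact hxt_mv _ _ (by rw [e]; exact Matrix.mul_nonsing_inv _ hu)
      · exact hxt_mv _ _ (by rw [e]; exact Matrix.nonsing_inv_mul _ hu)
    · have e : Matrix.of (fun i j => (Matrix.of A)⁻¹ i j) = (Matrix.of A)⁻¹ := rfl
      change (fun i j => (Matrix.of (fun i j => (Matrix.of A)⁻¹ i j))⁻¹ i j : Mat n) = A
      rw [e, Matrix.nonsing_inv_nonsing_inv _ hu]
      rfl
  refine (dimH_mono hsub).trans ?_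
  apply dimH_image_le_of_locally_lipschitzOn
  intro X hX
  rw [hZ] at hX
  obtain ⟨C, t, ht, hL⟩ := (hxt_inv X hX.1).exists_lipschitzOnWith
  exact ⟨C, t, mem_nhdsWithin_of_mem_nhds ht, hL⟩

end Pool.Agent.AEE
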