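import Pool.Agent.AEE.XB
import Pool.Agent.AEE.XH
import Pool.Agent.AEE.XT
import Pool.Agent.AEL.FN
import Pool.Agent.MP_6cbfb8_an.SteinTomas

namespace Pool.Agent.AEE

open MeasureTheory Set Pool.Agent.MP_6cbfb8_an Pool.Agent.MST Pool.Agent.AEL
open scoped ENNReal NNReal Real

/-
ROW XF (1.2 h). dim_octave: transfer_dim with P A = the negated statement; the set of its hypothesis is contained in the set of `dim_M` for K (contraposition of `ident`;
if the exponent-p integral of `dim_M`'s condition holds then P A fails).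
dim_all: for i : ℤ let λ_i = √2 ^ i (zpow), G_i w = G (λ_i • w). If for all i the statement of dim_octave holds for A and G_i (exponent q), then for a.e. r > 0 the integral
of ‖extn (fun x => G (mv A (r • x)))‖^q is finite: r = λ_i √κ with κ ∈ [1, 2] (κ ↦ λ_i √κ maps null sets of [1,2] to null sets: it is locally Lipschitz on [1,2]; or use
quasi measure preserving maps r ↦ (r/λ_i)² on (0, ∞)), λ_i • mv A (√κ • x) = mv A (r • x). For such r: `lintegral_rpow_le_sup` gives all exponents p' > q and `multicut`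
(p0 = q, class of the one function) gives all N, v, c for the exponent p > q, as in hfn_one (Pool.Agent.AEL.FN). So the set is contained in the countable union over i of the sets of
dim_octave for G_i: dimH_iUnion.
-/
/-- one octave of radii, no half spaces, one exponent below 4 -/
theorem dim_octave (n : ℕ) (hn : 3 ≤ n) (p : ℝ) (hp : 2 < p) (hp4 : p < 4) (d : ℝ≥0)
    (hd : (n:ℝ) ^ 2 - (n - 1) + 2 / (p - 2) < d) (G : E n → ℂ) (hG : Measurable G)
    (hb : ∀ w, ‖G w‖ ≤ 1) :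
    dimH {A : Mat n | (Matrix.of A).det ≠ 0 ∧ ¬ ∀ᵐ κ ∂(volume.restrict (Icc (1:ℝ) 2)),
      ∫⁻ ξ, ‖extn (fun x => G (mv A (√κ • x))) ξ‖ₑ ^ p < ∞} ≤ d := by
  refine transfer_dim n (fun A => ¬ ∀ᵐ κ ∂(volume.restrict (Icc (1:ℝ) 2)),
      ∫⁻ ξ, ‖extn (fun x => G (mv A (√κ • x))) ξ‖ₑ ^ p < ∞) d ?_
  intro K
  refine le_trans (dimH_mono ?_) (dim_M n hn p hp hp4 d hd G hG hb (K : ℝ) (Nat.cast_nonneg K))
  rintro M ⟨hM, A, X, h1, h2, hq, hP⟩
  refine ⟨hM, fun hall => hP ?_⟩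
  exact ident hn M A X hq h1 h2 p (by linarith) G hG hb hall

/-- From the finiteness of one integral with exponent `q` to all half-space cuts, exponent
`p > q`. -/
theorem hxf_cut (n : ℕ) (hn : 3 ≤ n) (q p : ℝ) (hq : 2 < q) (hqp : q < p) (F : E n → ℂ)
    (hF : Measurable F) (hb : ∀ w, ‖F w‖ ≤ 1)
    (h : ∫⁻ ξ, ‖extn F ξ‖ₑ ^ q < ∞) (N : ℕ) (v : Fin N → E n) (c : Fin N → ℝ) :
    ∫⁻ ξ, ‖extn (fun x => F x * ∏ i, hsn (c i) (v i) x) ξ‖ₑ ^ p < ∞ := by
  have hall : ∀ p', q < p' → ∫⁻ ξ, ‖extn F ξ‖ₑ ^ p' < ∞ := by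
    intro p' hp'
    have h1 := lintegral_rpow_le_sup (μ := (volume : Measure (E n)))
      (fun ξ => ‖extn F ξ‖ₑ) (hfn_measurable_extn _ hF).enorm
      (p := p') (p' := q) (by linarith) hp'.le _
      (fun ξ => enorm_extn_le F (fun x => hb _) ξ)
    refine lt_of_le_of_lt h1 (ENNReal.mul_lt_top ?_ h)
    exact ENNReal.rpow_lt_top_of_nonneg (by linarith) (sm_univ_ne_top n)
  obtain ⟨K, hK, hmain⟩ := multicut n hn q (by linarith) (fun g => g = F) (by
    intro p' hp'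
    refine ⟨∫⁻ ξ, ‖extn F ξ‖ₑ ^ p', (hall p' hp').ne, ?_⟩
    rintro g _ _ rfl
    exact le_rfl) N p hqp
  exact lt_of_le_of_lt (hmain F hF hb rfl v c) hK.lt_top

/-- Almost every radius, from almost every radius in each octave. -/
theorem hxf_all (P : ℝ → Prop)
    (h : ∀ i : ℤ, ∀ᵐ κ ∂(volume.restrict (Icc (1:ℝ) 2)), P ((√2) ^ i * √κ)) :
    ∀ᵐ r : ℝ, 0 < r → P r := by
  have h2pos : (0:ℝ) < √2 := Real.sqrt_pos.mpr (by norm_num)
  have h2one : (1:ℝ) < √2 := by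
    rw [show (1:ℝ) = √1 from Real.sqrt_one.symm]
    exact Real.sqrt_lt_sqrt (by norm_num) (by norm_num)
  have hnull : ∀ i : ℤ, volume ((fun κ : ℝ => (√2) ^ i * √κ) ''
      {κ | κ ∈ Icc (1:ℝ) 2 ∧ ¬ P ((√2) ^ i * √κ)}) = 0 := by
    intro i
    apply addHaar_image_eq_zero_of_differentiableOn_of_addHaar_eq_zero
    · intro κ hκ
      have hκ0 : κ ≠ 0 := by
        have := hκ.1.1
        intro h0
        rw [h0] at this
        linarith
      exact ((Real.hasDerivAt_sqrt hκ0).differentiableAt.const_mul _).differentiableWithinAt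
    · have h1 := h i
      rw [ae_restrict_iff' measurableSet_Icc, ae_iff] at h1
      refine measure_mono_null ?_ h1
      rintro κ ⟨hκ, hP⟩
      exact fun hh => hP (hh hκ)
  have hU : volume (⋃ i : ℤ, (fun κ : ℝ => (√2) ^ i * √κ) ''
      {κ | κ ∈ Icc (1:ℝ) 2 ∧ ¬ P ((√2) ^ i * √κ)}) = 0 :=
    measure_iUnion_null hnull
  rw [ae_iff]
  refine measure_mono_null ?_ hU
  intro r hr
  have hr' : ¬ (0 < r → P r) := hr
  push Not at hr'
  obtain ⟨hr0, hP⟩ := hr'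
  obtain ⟨i, hi1, hi2⟩ := exists_mem_Ico_zpow hr0 h2one
  rw [mem_iUnion]
  refine ⟨i, (r / (√2) ^ i) ^ 2, ?_, ?_⟩
  · have hz : (0:ℝ) < (√2) ^ i := zpow_pos h2pos i
    have ha : 1 ≤ r / (√2) ^ i := (one_le_div hz).mpr hi1
    have hb : r / (√2) ^ i ≤ √2 := by
      rw [div_le_iff₀ hz, mul_comm, ← zpow_add_one₀ h2pos.ne']
      exact hi2.le
    have hs : √((r / (√2) ^ i) ^ 2) = r / (√2) ^ i := Real.sqrt_sq (by linarith)
    refine ⟨⟨?_, ?_⟩, ?_⟩
    · nlinarith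
    · calc (r / (√2) ^ i) ^ 2 ≤ (√2) ^ 2 := by
            exact pow_le_pow_left₀ (by linarith) hb 2
        _ = 2 := Real.sq_sqrt (by norm_num)
    · rw [hs, mul_div_cancel₀ _ hz.ne']
      exact hP
  · have hz : (0:ℝ) < (√2) ^ i := zpow_pos h2pos i
    have ha : 1 ≤ r / (√2) ^ i := (one_le_div hz).mpr hi1
    show (√2) ^ i * √((r / (√2) ^ i) ^ 2) = r
    rw [Real.sqrt_sq (by linarith), mul_div_cancel₀ _ hz.ne']

/-- all radii and half spaces, one exponent below 4 -/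
theorem dim_all (n : ℕ) (hn : 3 ≤ n) (q p : ℝ) (hq : 2 < q) (hq4 : q < 4) (hqp : q < p) (d : ℝ≥0)
    (hd : (n:ℝ) ^ 2 - (n - 1) + 2 / (q - 2) < d) (G : E n → ℂ) (hG : Measurable G)
    (hb : ∀ w, ‖G w‖ ≤ 1) :
    dimH {A : Mat n | (Matrix.of A).det ≠ 0 ∧ ¬ ∀ᵐ r : ℝ, 0 < r →
      ∀ (N : ℕ) (v : Fin N → E n) (c : Fin N → ℝ),
        ∫⁻ ξ, ‖extn (fun x => G (mv A (r • x)) * ∏ i, hsn (c i) (v i) x) ξ‖ₑ ^ p < ∞} ≤ d := by
  set S : ℤ → Set (Mat n) := fun i => {A : Mat n | (Matrix.of A).det ≠ 0 ∧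
    ¬ ∀ᵐ κ ∂(volume.restrict (Icc (1:ℝ) 2)),
      ∫⁻ ξ, ‖extn (fun x => (fun w => G ((√2) ^ i • w)) (mv A (√κ • x))) ξ‖ₑ ^ q < ∞} with hS
  have hSd : ∀ i, dimH (S i) ≤ d := fun i =>
    dim_octave n hn q hq hq4 d hd (fun w => G ((√2) ^ i • w))
      (hG.comp (measurable_const_smul _)) (fun w => hb _)
  have hsub : {A : Mat n | (Matrix.of A).det ≠ 0 ∧ ¬ ∀ᵐ r : ℝ, 0 < r →
      ∀ (N : ℕ) (v : Fin N → E n) (c : Fin N → ℝ),
        ∫⁻ ξ, ‖extn (fun x => G (mv A (r • x)) * ∏ i, hsn (c i) (v i) x) ξ‖ₑ ^ p < ∞} ⊆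
      ⋃ i, S i := by
    rintro A ⟨hA, hbad⟩
    by_contra hcon
    rw [mem_iUnion] at hcon
    push Not at hcon
    apply hbad
    have hcontA : Continuous (mv A) := continuous_mv.comp (continuous_const.prodMk continuous_id)
    have hae := hxf_all (fun r => ∫⁻ ξ, ‖extn (fun x => G (mv A (r • x))) ξ‖ₑ ^ q < ∞) (by
      intro i
      have h1 : ∀ᵐ κ ∂(volume.restrict (Icc (1:ℝ) 2)),
          ∫⁻ ξ, ‖extn (fun x => (fun w => G ((√2) ^ i • w)) (mv A (√κ • x))) ξ‖ₑ ^ q < ∞ := by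
        by_contra hne
        exact hcon i ⟨hA, hne⟩
      filter_upwards [h1] with κ hκ
      have h2 : (fun x : E n => G (mv A (((√2) ^ i * √κ) • x)))
          = fun x => (fun w => G ((√2) ^ i • w)) (mv A (√κ • x)) := by
        funext x
        show G (mv A (((√2) ^ i * √κ) • x)) = G ((√2) ^ i • mv A (√κ • x))
        rw [mul_smul, ht2_mv_smul]
      rw [h2]
      exact hκ)
    filter_upwards [hae] with r hr hr0 N v c
    exact hxf_cut n hn q p hq hqp (fun x => G (mv A (r • x)))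
      (hG.comp (hcontA.measurable.comp (measurable_const_smul _))) (fun w => hb _) (hr hr0) N v c
  calc dimH _ ≤ dimH (⋃ i, S i) := dimH_mono hsub
    _ = ⨆ i, dimH (S i) := dimH_iUnion S
    _ ≤ d := iSup_le hSd

end Pool.Agent.AEE
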