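import Pool.Agent.AEE.XF
import Pool.Agent.MP_6cbfb8_an.SteinTomas

namespace Pool.Agent.AEE

open MeasureTheory Set Pool.Agent.MP_6cbfb8_an Pool.Agent.MST Pool.Agent.AEL
open scoped ENNReal NNReal Real

theorem hxg_meas {n : ℕ} (G : E n → ℂ) (hG : Measurable G) (A : Mat n) (r : ℝ) {N : ℕ} (v : Fin N → E n)
    (c : Fin N → ℝ) : Measurable fun x : E n => G (mv A (r • x)) * ∏ i, hsn (c i) (v i) x := by
  have hcontA : Continuous fun x : E n => mv A (r • x) :=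
    (continuous_mv.comp (continuous_const.prodMk continuous_id)).comp (continuous_const_smul r)
  exact (hG.comp hcontA.measurable).mul (measurable_prod_hsn c v)

theorem hxg_scale {n : ℕ} (G : E n → ℂ) (hG : Measurable G) {K : ℝ} (hK0 : 0 < K) (A : Mat n) (r : ℝ)
    {N : ℕ} (v : Fin N → E n) (c : Fin N → ℝ) {p : ℝ} (hp0 : 0 ≤ p)
    (h2 : ∫⁻ ξ, ‖extn (fun x => (fun w => (K : ℂ)⁻¹ * G w) (mv A (r • x)) * ∏ i, hsn (c i) (v i) x) ξ‖ₑ ^ p < ∞) :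
    ∫⁻ ξ, ‖extn (fun x => G (mv A (r • x)) * ∏ i, hsn (c i) (v i) x) ξ‖ₑ ^ p < ∞ := by
  have hKc : (K : ℂ) ≠ 0 := by exact_mod_cast hK0.ne'
  have h3 : (fun x : E n => G (mv A (r • x)) * ∏ i, hsn (c i) (v i) x)
      = fun x => (K : ℂ) * ((K : ℂ)⁻¹ * G (mv A (r • x)) * ∏ i, hsn (c i) (v i) x) := by
    funext x
    rw [← mul_assoc, ← mul_assoc, mul_inv_cancel₀ hKc, one_mul]
  rw [h3]
  simp only [hfn_extn_const_mul, enorm_mul]
  have hm : Measurable fun x : E n => (K : ℂ)⁻¹ * G (mv A (r • x)) * ∏ i, hsn (c i) (v i) x :=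
    hxg_meas (fun w => (K : ℂ)⁻¹ * G w) (hG.const_mul _) A r v c
  have hm2 : Measurable fun ξ : E n =>
      ‖extn (fun x => (K : ℂ)⁻¹ * G (mv A (r • x)) * ∏ i, hsn (c i) (v i) x) ξ‖ₑ ^ p :=
    (hfn_measurable_extn _ hm).enorm.pow_const p
  have h4 : ∀ ξ : E n, (‖(K : ℂ)‖ₑ *
      ‖extn (fun x => (K : ℂ)⁻¹ * G (mv A (r • x)) * ∏ i, hsn (c i) (v i) x) ξ‖ₑ) ^ p
      = ‖(K : ℂ)‖ₑ ^ p *
        ‖extn (fun x => (K : ℂ)⁻¹ * G (mv A (r • x)) * ∏ i, hsn (c i) (v i) x) ξ‖ₑ ^ p := fun ξ =>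
    ENNReal.mul_rpow_of_nonneg _ _ hp0
  simp only [h4]
  rw [lintegral_const_mul _ hm2]
  exact ENNReal.mul_lt_top (ENNReal.rpow_lt_top_of_nonneg hp0 enorm_ne_top) h2

theorem hxg_tomas (n : ℕ) (hn : 3 ≤ n) (G : E n → ℂ) (hG : Measurable G) (hb : ∀ w, ‖G w‖ ≤ 1) (p : ℝ)
    (hp : 4 < p) (A : Mat n) (r : ℝ) (N : ℕ) (v : Fin N → E n) (c : Fin N → ℝ) :
    ∫⁻ ξ, ‖extn (fun x => G (mv A (r • x)) * ∏ i, hsn (c i) (v i) x) ξ‖ₑ ^ p < ∞ := by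
  obtain ⟨j, rfl⟩ : ∃ j, n = j + 2 := ⟨n - 2, by omega⟩
  have hj : (1 : ℝ) ≤ j := by
    have : 1 ≤ j := by omega
    exact_mod_cast this
  obtain ⟨C, hC, h⟩ := stein_tomas j p (by
    refine lt_of_le_of_lt ?_ hp
    rw [div_le_iff₀ (by linarith)]
    linarith)
  have hb1 : ∀ x : E (j + 2), ‖G (mv A (r • x)) * ∏ i, hsn (c i) (v i) x‖ ≤ 1 := by
    intro x
    rw [norm_mul]
    exact mul_le_one₀ (hb _) (norm_nonneg _) (norm_prod_hsn_le _ _ _)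
  refine lt_of_le_of_lt (h _ (hxg_meas G hG A r v c) (fun x => (hb1 x).trans (by norm_num))) ?_
  refine ENNReal.mul_lt_top hC.lt_top ?_
  refine ENNReal.rpow_lt_top_of_nonneg (by linarith) ?_
  refine ne_top_of_le_ne_top (sm_univ_ne_top (j + 2)) ?_
  calc ∫⁻ x : S (j + 2), ‖G (mv A (r • (x : E (j + 2)))) * ∏ i, hsn (c i) (v i) (x : E (j + 2))‖ₑ ^ (2:ℝ) ∂(sm (j + 2))
      ≤ ∫⁻ _ : S (j + 2), 1 ∂(sm (j + 2)) := by
        refine lintegral_mono fun x => ?_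
        refine ENNReal.rpow_le_one ?_ (by norm_num)
        rw [← ofReal_norm]
        exact ENNReal.ofReal_le_one.2 (hb1 x)
    _ = sm (j + 2) univ := by rw [lintegral_one]

theorem hxg_one (n : ℕ) (hn : 3 ≤ n) (G : E n → ℂ) (hG : Measurable G) (hb : ∀ w, ‖G w‖ ≤ 1) (p : ℝ) (hp : 2 < p) :
    dimH {A : Mat n | (Matrix.of A).det ≠ 0 ∧ ¬ ∀ᵐ r : ℝ, 0 < r →
      ∀ (N : ℕ) (v : Fin N → E n) (c : Fin N → ℝ),
        ∫⁻ ξ, ‖extn (fun x => G (mv A (r • x)) * ∏ i, hsn (c i) (v i) x) ξ‖ₑ ^ p < ∞} ≤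
      ENNReal.ofReal ((n:ℝ) ^ 2 - (n - 1) + 2 / (p - 2)) := by
  have hn' : (3 : ℝ) ≤ n := by exact_mod_cast hn
  refine le_of_forall_gt_imp_ge_of_dense fun c hc => ?_
  rcases eq_or_ne c ∞ with rfl | hct
  · exact le_top
  lift c to ℝ≥0 using hct
  rcases le_or_gt p 4 with hp4 | hp4
  · have hb0 : 0 ≤ (n:ℝ) ^ 2 - (n - 1) + 2 / (p - 2) := by
      have h1 : 0 ≤ 2 / (p - 2) := div_nonneg (by norm_num) (by linarith)
      nlinarith
    have hc' : (n:ℝ) ^ 2 - (n - 1) + 2 / (p - 2) < c := by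
      have h2 := (ENNReal.ofReal_lt_iff_lt_toReal hb0 ENNReal.coe_ne_top).1 hc
      simpa using h2
    obtain ⟨δ, hδ⟩ : ∃ δ : ℝ, δ = c - ((n:ℝ) ^ 2 - (n - 1)) := ⟨_, rfl⟩
    have h3 : 2 / (p - 2) < δ := by rw [hδ]; linarith
    have hp2 : 0 < p - 2 := by linarith
    have hδ0 : 0 < δ := lt_trans (div_pos (by norm_num) hp2) h3
    have h4 : 2 / δ < p - 2 := by
      rw [div_lt_iff₀ hδ0]
      rw [div_lt_iff₀ hp2] at h3
      linarith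
    have h5 : 0 < 2 / δ := div_pos (by norm_num) hδ0
    obtain ⟨q, hq⟩ : ∃ q : ℝ, q = 2 + (2 / δ + (p - 2)) / 2 := ⟨_, rfl⟩
    have h6 : 2 / (q - 2) < δ := by
      have h7 : 2 / δ < q - 2 := by rw [hq]; linarith
      have h8 : 0 < q - 2 := h5.trans h7
      rw [div_lt_iff₀ h8]
      rw [div_lt_iff₀ hδ0] at h7
      linarith
    exact dim_all n hn q p (by linarith) (by linarith) (by linarith) c (by linarith) G hG hb
  · have hempty : {A : Mat n | (Matrix.of A).det ≠ 0 ∧ ¬ ∀ᵐ r : ℝ, 0 < r →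
      ∀ (N : ℕ) (v : Fin N → E n) (c : Fin N → ℝ),
        ∫⁻ ξ, ‖extn (fun x => G (mv A (r • x)) * ∏ i, hsn (c i) (v i) x) ξ‖ₑ ^ p < ∞} = ∅ := by
      refine eq_empty_of_forall_notMem ?_
      rintro A ⟨-, hA⟩
      apply hA
      refine Filter.Eventually.of_forall ?_
      intro r _ N v c
      exact hxg_tomas n hn _ hG hb p hp4 A r N v c
    rw [hempty, dimH_empty]
    exact zero_le

/-
ROW XG (0.8 h). exceptional_lin: scaling as in `final` (FN.lean): divide G by max B 1. If p ≤ 4: for every d > bound choose 2 < q < p, q close to p, with n² - (n-1) + 2/(q-2) < d (continuity)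
and apply dim_all; le_of_forall_gt.. / ENNReal.le_of_forall_pos_le_add as in exc_dens (Pool.Agent.MST.ED6). If p > 4: the set is empty: Stein-Tomas (stein_tomas in
SteinTomas.lean, E (j+2), 2(j+3)/(j+1) ≤ 4 < p; g bounded measurable).
-/
theorem exceptional_lin (n : ℕ) (hn : 3 ≤ n) (G : E n → ℂ) (hG : Measurable G)
    (hb : ∃ B : ℝ, ∀ w, ‖G w‖ ≤ B) (p : ℝ) (hp : 2 < p) :
    dimH {A : Mat n | (Matrix.of A).det ≠ 0 ∧ ¬ ∀ᵐ r : ℝ, 0 < r →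
      ∀ (N : ℕ) (v : Fin N → E n) (c : Fin N → ℝ),
        ∫⁻ ξ, ‖extn (fun x => G (mv A (r • x)) * ∏ i, hsn (c i) (v i) x) ξ‖ₑ ^ p < ∞} ≤
      ENNReal.ofReal ((n:ℝ) ^ 2 - (n - 1) + 2 / (p - 2)) := by
  obtain ⟨B, hB⟩ := hb
  obtain ⟨K, hKdef⟩ : ∃ K : ℝ, K = max B 1 := ⟨_, rfl⟩
  have hK1 : 1 ≤ K := hKdef ▸ le_max_right _ _
  have hKB : B ≤ K := hKdef ▸ le_max_left _ _
  have hK0 : 0 < K := by linarith
  have hp0 : 0 ≤ p := by linarith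
  have hG' : Measurable fun w => (K : ℂ)⁻¹ * G w := hG.const_mul _
  have hb' : ∀ w, ‖(fun w => (K : ℂ)⁻¹ * G w) w‖ ≤ 1 := by
    intro w
    beta_reduce
    rw [norm_mul, norm_inv, Complex.norm_real, Real.norm_of_nonneg hK0.le, inv_mul_eq_div,
      div_le_one hK0]
    exact (hB w).trans hKB
  refine (dimH_mono ?_).trans (hxg_one n hn (fun w => (K : ℂ)⁻¹ * G w) hG' hb' p hp)
  rintro A ⟨hA1, hA2⟩
  refine ⟨hA1, fun h => hA2 ?_⟩
  filter_upwards [h] with r hr hr0 N v c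
  exact hxg_scale G hG hK0 A r v c hp0 (hr hr0 N v c)

end Pool.Agent.AEE
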