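import Pool.Agent.AEE.XA
import Pool.Agent.AEL.R4

namespace Pool.Agent.AEE

open MeasureTheory Set Pool.Agent.MP_6cbfb8_an Pool.Agent.MST Pool.Agent.AEL
open scoped ENNReal Real

/-- the weights of the four variables -/
noncomputable def hxk_B (A : ℝ → ℂ) (k : Fin 4) : ℝ → ℂ :=
  ![A, A, fun τ => (starRingEnd ℂ) (A τ), fun τ => (starRingEnd ℂ) (A τ)] k

theorem hxk_B_cont (A : ℝ → ℂ) (hA : Continuous A) (k : Fin 4) : Continuous (hxk_B A k) := by
  have h1 : Continuous fun τ => (starRingEnd ℂ) (A τ) := Complex.continuous_conj.comp hA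
  fin_cases k
  · exact hA
  · exact hA
  · exact h1
  · exact h1

theorem hxk_B_norm (A : ℝ → ℂ) (k : Fin 4) (τ : ℝ) : ‖hxk_B A k τ‖ = ‖A τ‖ := by
  have h1 : ‖(starRingEnd ℂ) (A τ)‖ = ‖A τ‖ := RCLike.norm_conj _
  fin_cases k
  · rfl
  · rfl
  · exact h1
  · exact h1

theorem hxk_ps (A : ℝ → ℂ) (R : ℝ) (hR : 0 ≤ R) (s : ℝ) :
    psA A R (2 * R) s = ∫ τ, A τ * ex (τ * s) ∂(volume.restrict (Icc R (2 * R))) := by
  unfold psA
  rw [intervalIntegral.integral_of_le (by linarith), integral_Icc_eq_integral_Ioc]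

theorem hxk_ps_conj (A : ℝ → ℂ) (R : ℝ) (hR : 0 ≤ R) (s : ℝ) :
    (starRingEnd ℂ) (psA A R (2 * R) s) =
      ∫ τ, (starRingEnd ℂ) (A τ) * ex (τ * -s) ∂(volume.restrict (Icc R (2 * R))) := by
  rw [hxk_ps A R hR, ← integral_conj]
  refine integral_congr_ae (Filter.Eventually.of_forall fun τ => ?_)
  show (starRingEnd ℂ) (A τ * ex (τ * s)) = (starRingEnd ℂ) (A τ) * ex (τ * -s)
  rw [map_mul, hkf_conj_ex, mul_neg]

theorem hxk_prod {n : ℕ} (A : ℝ → ℂ) (R : ℝ) (hR : 0 ≤ R) (w y z : E n) (l : Mat n × ℝ) :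
    psA A R (2 * R) (qf l.1 w + l.2) * psA A R (2 * R) (qf l.1 (w - y - z) + l.2) *
      (starRingEnd ℂ) (psA A R (2 * R) (qf l.1 (w - y) + l.2)) *
      (starRingEnd ℂ) (psA A R (2 * R) (qf l.1 (w - z) + l.2)) =
    ∫ t in Box R, (∏ k, hxk_B A k (t k)) * ex (∑ k, t k * hkr_q w y z l k) := by
  have h1 : ∀ t : Fin 4 → ℝ, (∏ k, hxk_B A k (t k)) * ex (∑ k, t k * hkr_q w y z l k) =
      ∏ k, (hxk_B A k (t k) * ex (t k * hkr_q w y z l k)) := by
    intro t
    rw [Finset.prod_mul_distrib, Fin.sum_univ_four, Fin.prod_univ_four (fun k => ex _),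
      hkf_ex_add, hkf_ex_add, hkf_ex_add]
  rw [hkr_meas]
  simp only [h1]
  rw [integral_fintype_prod_eq_prod (fun k (τ : ℝ) => hxk_B A k τ * ex (τ * hkr_q w y z l k)),
    Fin.prod_univ_four, hxk_ps A R hR, hxk_ps A R hR, hxk_ps_conj A R hR, hxk_ps_conj A R hR]
  rfl

theorem hxk_box (R : ℝ) : MeasurableSet (Box R) := by
  rw [hkr_box]
  exact MeasurableSet.univ_pi fun _ => measurableSet_Icc

theorem hxk_norm_prod (A : ℝ → ℂ) (R : ℝ) (h1 : ∀ τ ∈ Icc R (2 * R), ‖A τ‖ ≤ 1)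
    (t : Fin 4 → ℝ) (ht : t ∈ Box R) : ‖∏ k, hxk_B A k (t k)‖ ≤ 1 := by
  rw [norm_prod]
  refine Finset.prod_le_one (fun k _ => norm_nonneg _) fun k _ => ?_
  rw [hxk_B_norm]
  rw [hkr_box, Set.mem_univ_pi] at ht
  exact h1 _ (ht k)

/-
ROW XK (0.6 h). Copy of `kernel` (Pool.Agent.AEL.KR) and `hr4_kernel` (Pool.Agent.AEL.R4) with a weight A in the τ-variables, absolute values instead of an
identity. If one of the four points is outside the ball the product is 0. Otherwise write every psA as an integral over τ_k ∈ [R, 2R]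
(conj (A τ ex (τ s)) = conj (A τ) ex (τ (-s))), the product as ∫ t in Box R, (A t0 * A t1 * conj (A t2) * conj (A t3)) * ex (Σ t_k hkr_q w y z l k)
(integral_fintype_prod_eq_prod with the four functions τ ↦ B_k τ * ex (τ * hkr_q w y z l k), B = ![A, A, conj A, conj A]), exchange with ∫ l ∂(mu n) (finite measures,
integrand bounded by 1 on the box, continuous), ∫ l ex(...) ∂(mu n) = exp (-(π VV w y z t)) (hkr_phase, gauss_int), and ‖∫ t in Box R, B(t) exp(..)‖ₑ ≤
∫⁻ t in Box R, ofReal (exp ..) (enorm_integral_le_lintegral_enorm, ‖B t‖ ≤ 1 for t ∈ Box R; setLIntegral_mono' with measurability of Box R from hkr_box).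
-/
theorem kernelA {n : ℕ} (A : ℝ → ℂ) (hA : Continuous A) (R0 R : ℝ) (hR : 0 ≤ R)
    (h1 : ∀ τ ∈ Icc R (2 * R), ‖A τ‖ ≤ 1) (q : E n × E n × E n) :
    ‖∫ l, amA A R0 R (2 * R) l q.1 * amA A R0 R (2 * R) l (q.1 - q.2.1 - q.2.2) *
      (starRingEnd ℂ) (amA A R0 R (2 * R) l (q.1 - q.2.1)) *
      (starRingEnd ℂ) (amA A R0 R (2 * R) l (q.1 - q.2.2)) ∂(mu n)‖ₑ ≤
    if ‖q.1‖ ≤ R0 ∧ ‖q.1 - q.2.1 - q.2.2‖ ≤ R0 ∧ ‖q.1 - q.2.1‖ ≤ R0 ∧ ‖q.1 - q.2.2‖ ≤ R0 then
      hr4_F R q else 0 := by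
  obtain ⟨w, y, z⟩ := q
  simp only
  split_ifs with h
  · obtain ⟨a1, a2, a3, a4⟩ := h
    have := finite_mu n
    have hfin : IsFiniteMeasure ((volume : Measure (Fin 4 → ℝ)).restrict (Box R)) := by
      rw [hkr_meas]
      infer_instance
    have e1 : ∀ l : Mat n × ℝ, amA A R0 R (2 * R) l w * amA A R0 R (2 * R) l (w - y - z) *
        (starRingEnd ℂ) (amA A R0 R (2 * R) l (w - y)) *
        (starRingEnd ℂ) (amA A R0 R (2 * R) l (w - z)) =
        ∫ t in Box R, (∏ k, hxk_B A k (t k)) * ex (∑ k, t k * hkr_q w y z l k) := by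
      intro l
      rw [← hxk_prod A R hR]
      unfold amA
      rw [if_pos a1, if_pos a2, if_pos a3, if_pos a4]
    simp only [e1]
    rw [integral_integral_swap]
    · refine (enorm_integral_le_lintegral_enorm _).trans ?_
      unfold hr4_F
      refine setLIntegral_mono' (hxk_box R) fun t ht => ?_
      rw [integral_const_mul]
      have e2 : ∫ l, ex (∑ k, t k * hkr_q w y z l k) ∂(mu n) =
          ((Real.exp (-(π * VV w y z t)) : ℝ) : ℂ) := by
        simp only [hkr_phase]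
        rw [gauss_int (fun i j => t 0 * (w i * w j) + t 1 * ((w - y - z) i * (w - y - z) j) -
          t 2 * ((w - y) i * (w - y) j) - t 3 * ((w - z) i * (w - z) j)) (t 0 + t 1 - t 2 - t 3)]
        rfl
      rw [e2, ← ofReal_norm, norm_mul, Complex.norm_real, Real.norm_of_nonneg (Real.exp_pos _).le]
      refine ENNReal.ofReal_le_ofReal ?_
      exact mul_le_of_le_one_left (Real.exp_pos _).le (hxk_norm_prod A R h1 t ht)
    · refine Integrable.of_bound (C := 1) ?_ ?_
      · refine Continuous.aestronglyMeasurable ?_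
        refine Continuous.mul ?_ ?_
        · exact continuous_finsetProd _ fun k _ => (hxk_B_cont A hA k).comp
            ((continuous_apply k).comp continuous_snd)
        · refine hkf_cont_ex.comp (continuous_finsetSum _ fun k _ => ?_)
          exact ((continuous_apply k).comp continuous_snd).mul
            ((hkr_q_meas w y z k).comp continuous_fst)
      · have h5 : ∀ᵐ t ∂((volume : Measure (Fin 4 → ℝ)).restrict (Box R)), t ∈ Box R :=
          ae_restrict_mem (hxk_box R)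
        filter_upwards [Measure.quasiMeasurePreserving_snd.ae h5] with q hq
        show ‖(∏ k, hxk_B A k (q.2 k)) * ex _‖ ≤ 1
        rw [norm_mul, hkf_norm_ex, mul_one]
        exact hxk_norm_prod A R h1 _ hq
  · have e1 : ∀ l : Mat n × ℝ, amA A R0 R (2 * R) l w * amA A R0 R (2 * R) l (w - y - z) *
        (starRingEnd ℂ) (amA A R0 R (2 * R) l (w - y)) *
        (starRingEnd ℂ) (amA A R0 R (2 * R) l (w - z)) = 0 := by
      intro l
      unfold amA
      by_cases b1 : ‖w‖ ≤ R0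
      · by_cases b2 : ‖w - y - z‖ ≤ R0
        · by_cases b3 : ‖w - y‖ ≤ R0
          · by_cases b4 : ‖w - z‖ ≤ R0
            · exact absurd ⟨b1, b2, b3, b4⟩ h
            · rw [if_neg b4, map_zero, mul_zero]
          · rw [if_neg b3, map_zero, mul_zero, zero_mul]
        · rw [if_neg b2, mul_zero, zero_mul, zero_mul]
      · rw [if_neg b1, zero_mul, zero_mul, zero_mul]
    simp only [e1, integral_zero, enorm_zero]
    exact le_rfl

end Pool.Agent.AEE
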