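import Pool.Agent.AEE.XK

namespace Pool.Agent.AEE

open MeasureTheory Set Pool.Agent.MP_6cbfb8_an Pool.Agent.MST Pool.Agent.AEL
open scoped ENNReal Real

/-- Reduction of the fourth power to a volume integral, with a weight. -/
theorem hxl_red {n : ℕ} (A : ℝ → ℂ) (hA : Continuous A) (R0 R : ℝ) (hR : 0 < R)
    (h1A : ∀ τ ∈ Icc R (2 * R), ‖A τ‖ ≤ 1) (G : E n → ℂ) (hG : Measurable G)
    (hb : ∀ w, ‖G w‖ ≤ 1) :
    ∫⁻ l, (∫⁻ x : E n, ‖opA A R0 R (2 * R) l G x‖ₑ ^ (4:ℝ)) ∂(mu n) ≤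
      ∫⁻ m in Metric.closedBall (0 : E n) R0, ∫⁻ y in Metric.closedBall (0 : E n) (2 * R0),
        ∫⁻ z in Metric.closedBall (0 : E n) (2 * R0), ∫⁻ t in Box R,
          ENNReal.ofReal (Real.exp (-(π * VV (m + (1 / 2 : ℝ) • (y + z)) y z t))) := by
  have hfin : IsFiniteMeasure (mu n) := finite_mu n
  have h1 := four_linear_param (mu n) (fun l w => amA A R0 R (2 * R) l w)
    (measurable_amA A hA R0 R (2 * R)) (2 * R - R) R0
    (fun l w => norm_amA_le A R0 R (2 * R) (by linarith) h1A l w)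
    (fun l w hw => amA_zero A R0 R (2 * R) l w hw) G hG hb
  refine (le_of_eq ?_).trans (h1.trans ?_)
  · rfl
  refine (lintegral_mono fun q => (kernelA A hA R0 R hR.le h1A q).trans
    (hr4_point R0 R q)).trans ?_
  -- change of variables
  have h2 : ∫⁻ q : E n × E n × E n,
      hr4_H R0 R (q.1 - (1 / 2 : ℝ) • (q.2.1 + q.2.2), q.2.1, q.2.2) =
      ∫⁻ q : E n × E n × E n, hr4_H R0 R q := by
    have hm1 : Measurable fun q : E n × E n × E n =>
        hr4_H R0 R (q.1 - (1 / 2 : ℝ) • (q.2.1 + q.2.2), q.2.1, q.2.2) :=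
      (hr4_H_meas R0 R).comp (by fun_prop)
    rw [Measure.volume_eq_prod, lintegral_prod_symm _ hm1.aemeasurable,
      lintegral_prod_symm _ (hr4_H_meas R0 R).aemeasurable]
    refine lintegral_congr fun p => ?_
    exact lintegral_sub_right_eq_self (fun m => hr4_H R0 R (m, p.1, p.2))
      ((1 / 2 : ℝ) • (p.1 + p.2))
  rw [h2]
  unfold hr4_H
  rw [lintegral_indicator (hr4_C_meas n R0)]
  unfold hr4_C
  rw [Measure.volume_eq_prod, ← Measure.prod_restrict, lintegral_prod _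
    (hr4_F2_meas R).aemeasurable]
  refine lintegral_mono fun m => ?_
  have hm2 : Measurable fun p : E n × E n =>
      hr4_F R (m + (1 / 2 : ℝ) • (p.1 + p.2), p.1, p.2) := (hr4_F_meas R).comp (by fun_prop)
  rw [Measure.volume_eq_prod, ← Measure.prod_restrict]
  refine (lintegral_prod _ hm2.aemeasurable).le.trans ?_
  exact le_rfl

/-
ROW XL (0.4 h). Copy of `L4_red` (Pool.Agent.AEL.R4) and `L4_bound` (Pool.Agent.AEL.AM) with `kernelA` instead of `hr4_kernel`, `measurable_amA`, `norm_amA_le`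
(bound 2 * R - R, R ≤ 2 * R), `amA_zero` (four_linear_param needs exactly these). The right-hand side of L4_red is the same volume integral, so the rest of the proof
of L4_bound (rotate_m, change_m, master, radial_m) is word for word the same.
-/
theorem L4_boundA (n : ℕ) (hn : 3 ≤ n) (R0 : ℝ) (hR0 : 1 ≤ R0) : ∃ C : ℝ, 0 < C ∧ ∀ R : ℝ, 1 ≤ R →
    ∀ A : ℝ → ℂ, Continuous A → (∀ τ ∈ Icc R (2 * R), ‖A τ‖ ≤ 1) →
    ∀ G : E n → ℂ, Measurable G → (∀ w, ‖G w‖ ≤ 1) →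
    ∫⁻ l, (∫⁻ x : E n, ‖opA A R0 R (2 * R) l G x‖ₑ ^ (4:ℝ)) ∂(mu n) ≤
      ENNReal.ofReal (C * (1 + Real.log R) ^ n / R ^ (n - 2)) := by
  obtain ⟨d, rfl⟩ : ∃ d, n = d + 1 := ⟨n - 1, by omega⟩
  have hd : 2 ≤ d := by omega
  obtain ⟨c, hc, hrot⟩ := rotate_m d R0 hR0
  obtain ⟨C1, hC1, hmas⟩ := master d hd c (2 * R0) (5 * R0) hc (by linarith) (by linarith)
  have hI := radial_m (d + 1) (by omega) (((d + 1 : ℕ) : ℝ) - 2) R0 (by
    have : (2 : ℝ) ≤ d := by exact_mod_cast hd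
    push_cast
    linarith)
  have hexp : (((d + 1 : ℕ) : ℝ) - 2 - ((d + 1 : ℕ) : ℝ)) = -2 := by ring
  rw [hexp] at hI
  set I : ℝ≥0∞ := ∫⁻ y in Metric.closedBall (0 : E (d + 1)) R0, ENNReal.ofReal ‖y‖ ^ (-2 : ℝ) with hIdef
  refine ⟨I.toReal * C1 + 1, by positivity, ?_⟩
  intro R hR A hA h1A G hG hb
  have hlog : 0 ≤ Real.log R := Real.log_nonneg hR
  have hR0' : 0 < R := by linarith
  refine (hxl_red A hA R0 R hR0' h1A G hG hb).trans ?_
  have hne : ∀ᵐ m : E (d + 1), m ≠ 0 := compl_mem_ae_iff.2 (measure_singleton 0)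
  have hstep : ∀ᵐ m ∂(volume.restrict (Metric.closedBall (0 : E (d + 1)) R0)),
      (∫⁻ y in Metric.closedBall (0 : E (d + 1)) (2 * R0),
        ∫⁻ z in Metric.closedBall (0 : E (d + 1)) (2 * R0), ∫⁻ t in Box R,
          ENNReal.ofReal (Real.exp (-(π * VV (m + (1 / 2 : ℝ) • (y + z)) y z t)))) ≤
        ENNReal.ofReal ‖m‖ ^ (-2 : ℝ) * MI d c (2 * R0) (5 * R0) R := by
    filter_upwards [ae_restrict_of_ae hne, ae_restrict_mem measurableSet_closedBall] with m hm0 hm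
    have hmR : ‖m‖ ≤ R0 := mem_closedBall_zero_iff.1 hm
    have hmp : 0 < ‖m‖ := norm_pos_iff.2 hm0
    refine (hrot R hR m hmR).trans ((change_m d R0 c hR0 hc R hR ‖m‖ hmp hmR).trans ?_)
    rw [ENNReal.ofReal_rpow_of_pos hmp]
  refine (lintegral_mono_ae hstep).trans ?_
  have hMI := hmas R hR
  have hMIt : MI d c (2 * R0) (5 * R0) R ≠ ∞ := ne_top_of_le_ne_top ENNReal.ofReal_ne_top hMI
  rw [lintegral_mul_const' _ _ hMIt]
  change I * MI d c (2 * R0) (5 * R0) R ≤ _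
  have h1 : d + 1 - 2 = d - 1 := by omega
  rw [h1]
  calc I * MI d c (2 * R0) (5 * R0) R
      ≤ ENNReal.ofReal I.toReal * ENNReal.ofReal (C1 * (1 + Real.log R) ^ (d + 1) / R ^ (d - 1)) := by
        rw [ENNReal.ofReal_toReal hI.ne]
        gcongr
    _ = ENNReal.ofReal (I.toReal * (C1 * (1 + Real.log R) ^ (d + 1) / R ^ (d - 1))) := by
        rw [← ENNReal.ofReal_mul ENNReal.toReal_nonneg]
    _ ≤ ENNReal.ofReal ((I.toReal * C1 + 1) * (1 + Real.log R) ^ (d + 1) / R ^ (d - 1)) := by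
        apply ENNReal.ofReal_le_ofReal
        have h2 : 0 ≤ (1 + Real.log R) ^ (d + 1) / R ^ (d - 1) := by positivity
        have h3 : (I.toReal * C1 + 1) * (1 + Real.log R) ^ (d + 1) / R ^ (d - 1) =
            I.toReal * (C1 * (1 + Real.log R) ^ (d + 1) / R ^ (d - 1)) +
              (1 + Real.log R) ^ (d + 1) / R ^ (d - 1) := by ring
        rw [h3]
        linarith

end Pool.Agent.AEE
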