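import Pool.Agent.AEE.XS

namespace Pool.Agent.AEE

open MeasureTheory Set Pool.Agent.MP_6cbfb8_an Pool.Agent.MST Pool.Agent.AEL
open scoped ENNReal Real

theorem hxm_mc (n : ℕ) (K : ℝ) : MeasurableSet (mc n K) := by
  have h1 : mc n K = ⋂ i : Fin n, ⋂ j : Fin n, {M : Mat n | |M i j| ≤ K} := by
    ext M
    simp [mc]
  rw [h1]
  refine MeasurableSet.iInter fun i => MeasurableSet.iInter fun j => ?_
  exact measurableSet_le (by fun_prop) measurable_const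

theorem hxm_gw (n : ℕ) (K : ℝ) (M : Mat n) (hM : M ∈ mc n K) (κ : ℝ)
    (hκ : κ ∈ Icc (1:ℝ) 2) :
    Real.exp (-(π * ((n : ℝ) ^ 2 * K ^ 2 + 4))) ≤ gw (M, -κ) := by
  unfold gw
  refine Real.exp_le_exp.2 (neg_le_neg (mul_le_mul_of_nonneg_left ?_ Real.pi_pos.le))
  have h1 : ∑ i, ∑ j, M i j ^ 2 ≤ (n : ℝ) ^ 2 * K ^ 2 := by
    calc ∑ i, ∑ j, M i j ^ 2 ≤ ∑ _i : Fin n, ∑ _j : Fin n, K ^ 2 := by
          refine Finset.sum_le_sum fun i _ => Finset.sum_le_sum fun j _ => ?_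
          rw [← sq_abs]
          exact pow_le_pow_left₀ (abs_nonneg _) (hM i j) 2
      _ = (n : ℝ) ^ 2 * K ^ 2 := by
          simp only [Finset.sum_const, Finset.card_univ, Fintype.card_fin, nsmul_eq_mul]
          ring
  have h2 : (-κ) ^ 2 ≤ 4 := by nlinarith [hκ.1, hκ.2]
  show (∑ i, ∑ j, M i j ^ 2) + (-κ) ^ 2 ≤ _
  linarith

theorem hxm_int (n : ℕ) (K : ℝ) (W : Mat n × ℝ → ℝ≥0∞) (hW : Measurable W) :
    ENNReal.ofReal (Real.exp (-(π * ((n : ℝ) ^ 2 * K ^ 2 + 4)))) *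
      ∫⁻ M in mc n K, ∫⁻ κ in Icc (1:ℝ) 2, W (M, -κ) ≤ ∫⁻ l, W l ∂(mu n) := by
  have hg : Measurable fun l : Mat n × ℝ => ENNReal.ofReal (gw l) := by
    have h1 : Measurable fun l : Mat n × ℝ => gw l := by
      unfold gw
      fun_prop
    exact h1.ennreal_ofReal
  have hgW : Measurable fun l : Mat n × ℝ => ENNReal.ofReal (gw l) * W l := hg.mul hW
  have e1 : ∫⁻ l, W l ∂(mu n) = ∫⁻ M : Mat n, ∫⁻ c : ℝ, ENNReal.ofReal (gw (M, c)) * W (M, c) := by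
    unfold mu
    rw [lintegral_withDensity_eq_lintegral_mul _ hg hW, Measure.volume_eq_prod]
    exact lintegral_prod _ hgW.aemeasurable
  rw [e1]
  have hV : Measurable fun M : Mat n => ∫⁻ κ in Icc (1:ℝ) 2, W (M, -κ) := by
    have h2 : Measurable fun q : Mat n × ℝ => ((q.1, -q.2) : Mat n × ℝ) :=
      measurable_fst.prodMk measurable_snd.neg
    have h3 : Measurable fun q : Mat n × ℝ => W (q.1, -q.2) := hW.comp h2
    exact Measurable.lintegral_prod_right' h3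
  rw [← lintegral_const_mul _ hV]
  refine le_trans ?_ (setLIntegral_le_lintegral (mc n K) _)
  refine setLIntegral_mono' (hxm_mc n K) fun M hM => ?_
  have e2 : ∫⁻ c : ℝ, ENNReal.ofReal (gw (M, c)) * W (M, c) =
      ∫⁻ κ : ℝ, ENNReal.ofReal (gw (M, -κ)) * W (M, -κ) :=
    (lintegral_neg_eq_self (fun c : ℝ => ENNReal.ofReal (gw (M, c)) * W (M, c))).symm
  rw [e2]
  refine le_trans ?_ (setLIntegral_le_lintegral (Icc (1:ℝ) 2) _)
  have hWM : Measurable fun κ : ℝ => W (M, -κ) := by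
    have h2 : Measurable fun κ : ℝ => ((M, -κ) : Mat n × ℝ) :=
      measurable_const.prodMk measurable_neg
    exact hW.comp h2
  rw [← lintegral_const_mul _ hWM]
  refine setLIntegral_mono' measurableSet_Icc fun κ hκ => ?_
  exact mul_le_mul_left (ENNReal.ofReal_le_ofReal (hxm_gw n K M hM κ hκ)) _

/-
ROW XM (0.6 h). Take W of `stab` for R = 2^k and V M := ∫⁻ κ in Icc 1 2, W (M, -κ). HH R0 k M G ≤ V M' pointwise in κ. The Gaussian weight is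
gw (M, -κ) ≥ exp (-(π (n² K² + 4))) =: g0 for M ∈ mc n K, κ ∈ [1, 2]; so (Tonelli, mu n = withDensity gw, volume on Mat n × ℝ is the product measure,
c = -κ is measure preserving) g0 * ∫⁻ M in mc n K, V M ≤ ∫⁻ W ∂(mu n). log (2^k) = k log 2 ≤ k.
-/
theorem HH_stab (n : ℕ) (hn : 3 ≤ n) (R0 : ℝ) (hR0 : 1 ≤ R0) (K : ℝ) (hK : 0 ≤ K) :
    ∃ C : ℝ, 0 < C ∧ ∀ G : E n → ℂ, Measurable G → (∀ w, ‖G w‖ ≤ 1) → ∀ k : ℕ,
      ∃ V : Mat n → ℝ≥0∞, Measurable V ∧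
        (∀ M M' : Mat n, (∀ i j, |M i j - M' i j| ≤ 1 / (2:ℝ) ^ k) → HH R0 k M G ≤ V M') ∧
        ∫⁻ M in mc n K, V M ≤ ENNReal.ofReal (C * (1 + k) ^ n / ((2:ℝ) ^ k) ^ (n - 2)) := by
  obtain ⟨C, hC, hst⟩ := stab n hn R0 hR0
  set g0 : ℝ := Real.exp (-(π * ((n : ℝ) ^ 2 * K ^ 2 + 4))) with hg0
  have hg0' : 0 < g0 := Real.exp_pos _
  refine ⟨C / g0, by positivity, fun G hG hb k => ?_⟩
  have hk1 : (1:ℝ) ≤ (2:ℝ) ^ k := one_le_pow₀ (by norm_num)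
  obtain ⟨W, hW, hW1, hW2⟩ := hst ((2:ℝ) ^ k) hk1 G hG hb
  refine ⟨fun M => ∫⁻ κ in Icc (1:ℝ) 2, W (M, -κ), ?_, fun M M' hM => ?_, ?_⟩
  · have h2 : Measurable fun q : Mat n × ℝ => ((q.1, -q.2) : Mat n × ℝ) :=
      measurable_fst.prodMk measurable_snd.neg
    have h3 : Measurable fun q : Mat n × ℝ => W (q.1, -q.2) := hW.comp h2
    exact Measurable.lintegral_prod_right' h3
  · unfold HH
    exact lintegral_mono fun κ => hW1 M M' (-κ) hM
  · have h1 := (hxm_int n K W hW).trans hW2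
    have hlog : Real.log ((2:ℝ) ^ k) ≤ k := by
      rw [Real.log_pow]
      have h3 : Real.log 2 ≤ 1 := by
        have := Real.log_two_lt_d9
        linarith
      have h4 : (0:ℝ) ≤ k := Nat.cast_nonneg k
      nlinarith
    have hlog0 : 0 ≤ Real.log ((2:ℝ) ^ k) := Real.log_nonneg hk1
    have h2 : ENNReal.ofReal g0 * ∫⁻ M in mc n K, ∫⁻ κ in Icc (1:ℝ) 2, W (M, -κ) ≤
        ENNReal.ofReal g0 * ENNReal.ofReal (C / g0 * (1 + k) ^ n / ((2:ℝ) ^ k) ^ (n - 2)) := by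
      refine h1.trans ?_
      rw [← ENNReal.ofReal_mul hg0'.le]
      refine ENNReal.ofReal_le_ofReal ?_
      have e : g0 * (C / g0 * (1 + k) ^ n / ((2:ℝ) ^ k) ^ (n - 2)) =
          C * (1 + k) ^ n / ((2:ℝ) ^ k) ^ (n - 2) := by
        field_simp
      rw [e]
      gcongr
    exact (ENNReal.mul_le_mul_iff_right (ENNReal.ofReal_pos.2 hg0').ne' ENNReal.ofReal_ne_top).1 h2

end Pool.Agent.AEE
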