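import Pool.Agent.AEE.Defs

namespace Pool.Agent.AEE

open MeasureTheory Set Pool.Agent.MP_6cbfb8_an Pool.Agent.MST Pool.Agent.AEL
open scoped ENNReal NNReal Real

theorem qf_Psi {n : ℕ} (X0 X : Mat n) (y : E n) : qf (Psi X0 X) y = ‖mv X y‖ ^ 2 := by
  have e1 : qf (Psi X0 X) y = (∑ i, ∑ j, (∑ k, X k i * X k j) * (y i * y j)) +
      (∑ i, ∑ j, (∑ k, X0 k i * X k j) * (y i * y j)) -
      ∑ i, ∑ j, (∑ k, X k i * X0 k j) * (y i * y j) := by
    unfold qf Psi
    rw [← Finset.sum_add_distrib, ← Finset.sum_sub_distrib]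
    refine Finset.sum_congr rfl fun i _ => ?_
    rw [← Finset.sum_add_distrib, ← Finset.sum_sub_distrib]
    refine Finset.sum_congr rfl fun j _ => ?_
    ring
  have e2 : (∑ i, ∑ j, (∑ k, X0 k i * X k j) * (y i * y j)) =
      ∑ i, ∑ j, (∑ k, X k i * X0 k j) * (y i * y j) := by
    rw [Finset.sum_comm]
    refine Finset.sum_congr rfl fun i _ => Finset.sum_congr rfl fun j _ => ?_
    rw [mul_comm (y j) (y i)]
    congr 1
    exact Finset.sum_congr rfl fun k _ => mul_comm _ _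
  have e3 : ‖mv X y‖ ^ 2 = ∑ k, (∑ i, X k i * y i) ^ 2 := by
    rw [EuclideanSpace.real_norm_sq_eq]
    rfl
  have e4 : ∀ k, (∑ i, X k i * y i) ^ 2 = ∑ i, ∑ j, (X k i * X k j) * (y i * y j) := by
    intro k
    rw [sq, Finset.sum_mul_sum]
    exact Finset.sum_congr rfl fun i _ => Finset.sum_congr rfl fun j _ => by ring
  rw [e1, e2, add_sub_cancel_right, e3]
  simp only [e4, Finset.sum_mul]
  rw [Finset.sum_comm]
  rw [Finset.sum_comm (s := (Finset.univ : Finset (Fin n))) (t := (Finset.univ : Finset (Fin n)))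
    (f := fun k i => ∑ j, (X k i * X k j) * (y i * y j))]
  rw [Finset.sum_comm]
  exact Finset.sum_congr rfl fun i _ => Finset.sum_comm

/-
ROW XP (0.8 h). qf_Psi: qf (X^T X) y = ‖mv X y‖² (EuclideanSpace.norm_sq_eq / real_inner; sums), and the other two terms are ⟨X0 y, X y⟩ - ⟨X y, X0 y⟩ = 0
(exchange i and j).
psi_local: with H = X - X' : Psi X0 X - Psi X0 X' = 2 X0^T H + E, E_ij = Σ_k ((X k i + X' k i)/2 - X0 k i) H k j + Σ_k H k i ((X k j + X' k j)/2 - X0 k j); so if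
|X - X0|, |X' - X0| ≤ η (sup norm) then |E_ij| ≤ 2 n η |H|. If X1 is the inverse of X0 (X0 X1 = 1): H = (X1)^T (X0^T H), so |H| ≤ n |X1| |X0^T H| and
|H| ≤ C (|Psi - Psi'| + 2 n η |H|)/2; choose η small. (Alternatively HasStrictFDerivAt and ApproximatesLinearOn.antilipschitz.) dist on Mat n is the sup metric
(dist_pi_le_iff, dist_le_pi_dist).
-/
theorem psi_local {n : ℕ} (X0 A0 : Mat n) (h1 : ∀ y, mv A0 (mv X0 y) = y)
    (h2 : ∀ y, mv X0 (mv A0 y) = y) : ∃ U : Set (Mat n), IsOpen U ∧ X0 ∈ U ∧ ∃ C : ℝ≥0,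
      ∀ X ∈ U, ∀ X' ∈ U, dist X X' ≤ C * dist (Psi X0 X) (Psi X0 X') := by
  -- the inverse matrix
  have hinv : ∀ k l, ∑ i, X0 k i * A0 i l = if k = l then 1 else 0 := by
    intro k l
    have h3 := h2 (EuclideanSpace.single l (1:ℝ))
    have h4 : (mv X0 (mv A0 (EuclideanSpace.single l (1:ℝ)))) k =
        (EuclideanSpace.single l (1:ℝ) : E n) k := by rw [h3]
    simpa [mv, PiLp.single_apply] using h4
  set K : ℝ := ∑ i, ∑ j, |A0 i j| with hK
  have hK0 : 0 ≤ K := Finset.sum_nonneg fun i _ => Finset.sum_nonneg fun j _ => abs_nonneg _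
  have hKl : ∀ l, ∑ i, |A0 i l| ≤ K := by
    intro l
    refine Finset.sum_le_sum fun i _ => ?_
    exact Finset.single_le_sum (f := fun j => |A0 i j|) (fun j _ => abs_nonneg _) (Finset.mem_univ l)
  set η : ℝ := 1 / (2 * K * n + 1) with hη
  have hden : 0 < 2 * K * n + 1 := by positivity
  have hη0 : 0 < η := by positivity
  have hKη : K * n * η ≤ 1 / 2 := by
    rw [hη, mul_one_div, div_le_div_iff₀ hden two_pos]
    linarith
  refine ⟨Metric.ball X0 η, Metric.isOpen_ball, Metric.mem_ball_self hη0, K.toNNReal, ?_⟩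
  intro X hX X' hX'
  have hent : ∀ (Y : Mat n) i j, |Y i j| ≤ ‖Y‖ := fun Y i j =>
    (norm_le_pi_norm (Y i) j).trans (norm_le_pi_norm Y i)
  rw [dist_eq_norm, dist_eq_norm, Real.coe_toNNReal K hK0]
  set H : Mat n := X - X' with hH
  set S : Mat n := Psi X0 X - Psi X0 X' with hS
  have hXb : ∀ i j, |X i j - X0 i j| ≤ η := by
    intro i j
    have h3 := hent (X - X0) i j
    rw [Metric.mem_ball, dist_eq_norm] at hX
    exact h3.trans hX.le
  have hXb' : ∀ i j, |X' i j - X0 i j| ≤ η := by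
    intro i j
    have h3 := hent (X' - X0) i j
    rw [Metric.mem_ball, dist_eq_norm] at hX'
    exact h3.trans hX'.le
  -- the main identity
  have hid : ∀ i j, 2 * (∑ k, X0 k i * H k j) = S i j -
      ((∑ k, ((X k i + X' k i) / 2 - X0 k i) * H k j) +
        ∑ k, H k i * ((X k j + X' k j) / 2 - X0 k j)) := by
    intro i j
    have : S i j = ((∑ k, X k i * X k j) + (∑ k, X0 k i * X k j) - ∑ k, X k i * X0 k j) -
        ((∑ k, X' k i * X' k j) + (∑ k, X0 k i * X' k j) - ∑ k, X' k i * X0 k j) := rfl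
    rw [this, Finset.mul_sum]
    simp only [← Finset.sum_add_distrib, ← Finset.sum_sub_distrib]
    refine Finset.sum_congr rfl fun k _ => ?_
    have a1 : H k j = X k j - X' k j := rfl
    have a2 : H k i = X k i - X' k i := rfl
    rw [a1, a2]
    ring
  have hmid : ∀ i j, |(X i j + X' i j) / 2 - X0 i j| ≤ η := by
    intro i j
    have h3 := abs_le.mp (hXb i j)
    have h4 := abs_le.mp (hXb' i j)
    rw [abs_le]
    constructor <;> linarith [h3.1, h3.2, h4.1, h4.2]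
  have hE1 : ∀ i j, |∑ k, ((X k i + X' k i) / 2 - X0 k i) * H k j| ≤ n * (η * ‖H‖) := by
    intro i j
    refine (Finset.abs_sum_le_sum_abs _ _).trans ?_
    refine (Finset.sum_le_sum (g := fun _ => η * ‖H‖) fun k _ => ?_).trans (by simp)
    rw [abs_mul]
    exact mul_le_mul (hmid k i) (hent H k j) (abs_nonneg _) hη0.le
  have hE2 : ∀ i j, |∑ k, H k i * ((X k j + X' k j) / 2 - X0 k j)| ≤ n * (η * ‖H‖) := by
    intro i j
    refine (Finset.abs_sum_le_sum_abs _ _).trans ?_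
    refine (Finset.sum_le_sum (g := fun _ => η * ‖H‖) fun k _ => ?_).trans (by simp)
    rw [abs_mul, mul_comm]
    exact mul_le_mul (hmid k j) (hent H k i) (abs_nonneg _) hη0.le
  have hT : ∀ i j, |∑ k, X0 k i * H k j| ≤ (‖S‖ + 2 * (n * (η * ‖H‖))) / 2 := by
    intro i j
    have h3 := hid i j
    have h4 := abs_le.mp (hent S i j)
    have h5 := abs_le.mp (hE1 i j)
    have h6 := abs_le.mp (hE2 i j)
    rw [abs_le]
    constructor <;> linarith [h4.1, h4.2, h5.1, h5.2, h6.1, h6.2]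
  have hHl : ∀ l j, H l j = ∑ i, A0 i l * ∑ k, X0 k i * H k j := by
    intro l j
    have h3 : ∑ i, A0 i l * ∑ k, X0 k i * H k j = ∑ k, (∑ i, X0 k i * A0 i l) * H k j := by
      simp only [Finset.mul_sum, Finset.sum_mul]
      rw [Finset.sum_comm]
      exact Finset.sum_congr rfl fun i _ => Finset.sum_congr rfl fun j _ => by ring
    rw [h3]
    simp [hinv]
  have hT0 : 0 ≤ (‖S‖ + 2 * (n * (η * ‖H‖))) / 2 := by positivity
  have hfin : ‖H‖ ≤ K * ((‖S‖ + 2 * (n * (η * ‖H‖))) / 2) := by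
    refine (pi_norm_le_iff_of_nonneg (mul_nonneg hK0 hT0)).mpr fun l => ?_
    refine (pi_norm_le_iff_of_nonneg (mul_nonneg hK0 hT0)).mpr fun j => ?_
    rw [Real.norm_eq_abs, hHl l j]
    refine (Finset.abs_sum_le_sum_abs _ _).trans ?_
    refine (Finset.sum_le_sum (g := fun i => |A0 i l| * ((‖S‖ + 2 * (n * (η * ‖H‖))) / 2))
      fun i _ => ?_).trans ?_
    · rw [abs_mul]
      exact mul_le_mul_of_nonneg_left (hT i j) (abs_nonneg _)
    · rw [← Finset.sum_mul]
      exact mul_le_mul_of_nonneg_right (hKl l) hT0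
  have h7 : K * ((‖S‖ + 2 * (n * (η * ‖H‖))) / 2) = K * ‖S‖ / 2 + (K * n * η) * ‖H‖ := by ring
  have h8 : (K * n * η) * ‖H‖ ≤ 1 / 2 * ‖H‖ := mul_le_mul_of_nonneg_right hKη (norm_nonneg _)
  rw [h7] at hfin
  linarith

end Pool.Agent.AEE
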