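import Pool.Agent.AEE.XL
import Pool.Agent.AEE.XE

namespace Pool.Agent.AEE

open MeasureTheory Set Pool.Agent.MP_6cbfb8_an Pool.Agent.MST Pool.Agent.AEL
open scoped ENNReal Real

/-- Jensen for a weighted sum (exponent 4). -/
theorem wsum_four {ι : Type*} (c f : ι → ℝ≥0∞) :
    (∑' i, c i * f i) ^ (4:ℝ) ≤ (∑' i, c i) ^ (3:ℝ) * ∑' i, c i * f i ^ (4:ℝ) := by
  have h1 : ∑' i, c i * f i ≤ (∑' i, c i) ^ (1 - (4:ℝ)⁻¹) * (∑' i, c i * f i ^ (4:ℝ)) ^ ((4:ℝ)⁻¹) := by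
    rw [ENNReal.tsum_eq_iSup_sum]
    refine iSup_le fun s => ?_
    refine (ENNReal.inner_le_weight_mul_Lp_of_nonneg s (by norm_num : (1:ℝ) ≤ 4) c f).trans ?_
    refine mul_le_mul' (ENNReal.rpow_le_rpow (ENNReal.sum_le_tsum s) (by norm_num))
      (ENNReal.rpow_le_rpow (ENNReal.sum_le_tsum s) (by norm_num))
  refine (ENNReal.rpow_le_rpow h1 (by norm_num : (0:ℝ) ≤ 4)).trans ?_
  rw [ENNReal.mul_rpow_of_nonneg _ _ (by norm_num : (0:ℝ) ≤ 4), ← ENNReal.rpow_mul, ← ENNReal.rpow_mul]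
  have h2 : (1 - (4:ℝ)⁻¹) * 4 = 3 := by norm_num
  have h3 : (4:ℝ)⁻¹ * 4 = 1 := by norm_num
  rw [h2, h3, ENNReal.rpow_one]

/-- the weights of the index `(k, s)` -/
noncomputable def hxs_c (n : ℕ) (R0 : ℝ) (i : Σ k : ℕ, (Fin k → Fin n × Fin n)) : ℝ≥0∞ :=
  ENNReal.ofReal ((4 * π * R0 ^ 2) ^ i.1 / (i.1.factorial : ℝ))

theorem hxs_sum (n : ℕ) (R0 : ℝ) :
    ∑' i, hxs_c n R0 i = ENNReal.ofReal (Real.exp (4 * π * R0 ^ 2 * (n * n))) := by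
  have h0 : 0 ≤ 4 * π * R0 ^ 2 := by positivity
  have h1 : ∀ k : ℕ, ∑' s : Fin k → Fin n × Fin n, hxs_c n R0 ⟨k, s⟩ =
      ENNReal.ofReal ((4 * π * R0 ^ 2 * (n * n)) ^ k / (k.factorial : ℝ)) := by
    intro k
    have h2 : ∀ s : Fin k → Fin n × Fin n, hxs_c n R0 ⟨k, s⟩ =
        ENNReal.ofReal ((4 * π * R0 ^ 2) ^ k / (k.factorial : ℝ)) := fun s => rfl
    rw [tsum_congr h2, tsum_fintype, Finset.sum_const, Finset.card_univ, Fintype.card_fun, Fintype.card_prod,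
      Fintype.card_fin, Fintype.card_fin, nsmul_eq_mul]
    have h3 : (((n * n) ^ k : ℕ) : ℝ≥0∞) = ENNReal.ofReal (((n * n : ℝ)) ^ k) := by
      rw [← ENNReal.ofReal_natCast]
      push_cast
      rfl
    rw [h3, ← ENNReal.ofReal_mul (by positivity)]
    congr 1
    rw [mul_pow (4 * π * R0 ^ 2)]
    ring
  rw [ENNReal.tsum_sigma', tsum_congr h1, ← ENNReal.ofReal_tsum_of_nonneg (fun k => by positivity)
    (Real.summable_pow_div_factorial _), Real.exp_eq_exp_ℝ, NormedSpace.exp_eq_tsum_div]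

theorem hxs_m0 {n : ℕ} (R0 R : ℝ) (G : E n → ℂ) (hG : Measurable G) (k : ℕ) (t : Fin k → Fin n × Fin n) :
    Measurable fun q : (Mat n × ℝ) × E n =>
      ‖opA (pw R k) R0 R (2 * R) q.1 (Gs R0 G k t) q.2‖ₑ ^ (4:ℝ) :=
  (measurable_opA (pw R k) (continuous_pw R k) R0 R (2 * R) _ (measurable_Gs R0 G hG k t)).enorm.pow_const _

theorem hxs_m1 {n : ℕ} (R0 R : ℝ) (G : E n → ℂ) (hG : Measurable G) (k : ℕ) (t : Fin k → Fin n × Fin n) :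
    Measurable fun l : Mat n × ℝ =>
      ∫⁻ x : E n, ‖opA (pw R k) R0 R (2 * R) l (Gs R0 G k t) x‖ₑ ^ (4:ℝ) := by
  have h := (hxs_m0 R0 R G hG k t).lintegral_prod_right' (ν := volume)
  exact h

theorem hxs_m2 {n : ℕ} (R0 R : ℝ) (G : E n → ℂ) (hG : Measurable G) (k : ℕ) (t : Fin k → Fin n × Fin n)
    (l : Mat n × ℝ) : Measurable fun x : E n =>
      ‖opA (pw R k) R0 R (2 * R) l (Gs R0 G k t) x‖ₑ ^ (4:ℝ) := by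
  have h := (hxs_m0 R0 R G hG k t).comp (measurable_prodMk_left (x := l))
  exact h

/-- the controlling function -/
noncomputable def hxs_W {n : ℕ} (R0 R : ℝ) (G : E n → ℂ) (l : Mat n × ℝ) : ℝ≥0∞ :=
  (∑' i, hxs_c n R0 i) ^ (3:ℝ) * ∑' i, hxs_c n R0 i *
    ∫⁻ x : E n, ‖opA (pw R i.1) R0 R (2 * R) l (Gs R0 G i.1 i.2) x‖ₑ ^ (4:ℝ)

theorem hxs_W_meas {n : ℕ} (R0 R : ℝ) (G : E n → ℂ) (hG : Measurable G) : Measurable (hxs_W R0 R G) := by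
  have h1 : Measurable fun l : Mat n × ℝ => ∑' i, hxs_c n R0 i *
      ∫⁻ x : E n, ‖opA (pw R i.1) R0 R (2 * R) l (Gs R0 G i.1 i.2) x‖ₑ ^ (4:ℝ) :=
    Measurable.ennreal_tsum fun i => (hxs_m1 R0 R G hG i.1 i.2).const_mul _
  exact h1.const_mul _

theorem hxs_point {n : ℕ} (R0 R : ℝ) (hR0 : 1 ≤ R0) (hR : 1 ≤ R) (G : E n → ℂ) (hG : Measurable G)
    (hb : ∀ w, ‖G w‖ ≤ 1) (M M' : Mat n) (hM : ∀ i j, |M i j - M' i j| ≤ 1 / R) (c : ℝ) (x : E n) :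
    ‖op R0 R (2 * R) (M, c) G x‖ₑ ^ (4:ℝ) ≤
        (∑' i, hxs_c n R0 i) ^ (3:ℝ) * ∑' i, hxs_c n R0 i *
          ‖opA (pw R i.1) R0 R (2 * R) (M', c) (Gs R0 G i.1 i.2) x‖ₑ ^ (4:ℝ) := by
  have h1 : ‖op R0 R (2 * R) (M, c) G x‖ₑ ≤ ∑' i, hxs_c n R0 i *
      ‖opA (pw R i.1) R0 R (2 * R) (M', c) (Gs R0 G i.1 i.2) x‖ₑ := by
    refine (op_expand R0 R hR0 hR G hG hb M M' hM c x).trans (le_of_eq ?_)
    rw [ENNReal.tsum_sigma']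
    refine tsum_congr fun k => ?_
    rw [tsum_fintype, Finset.mul_sum]
    rfl
  exact le_trans (ENNReal.rpow_le_rpow h1 (by norm_num)) (wsum_four _ _)

theorem hxs_le {n : ℕ} (R0 R : ℝ) (hR0 : 1 ≤ R0) (hR : 1 ≤ R) (G : E n → ℂ) (hG : Measurable G)
    (hb : ∀ w, ‖G w‖ ≤ 1) (M M' : Mat n) (hM : ∀ i j, |M i j - M' i j| ≤ 1 / R) (c : ℝ) :
    ∫⁻ x : E n, ‖op R0 R (2 * R) (M, c) G x‖ₑ ^ (4:ℝ) ≤ hxs_W R0 R G (M', c) := by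
  have h3 : ∀ i : Σ k : ℕ, (Fin k → Fin n × Fin n), Measurable fun x : E n => hxs_c n R0 i *
      ‖opA (pw R i.1) R0 R (2 * R) (M', c) (Gs R0 G i.1 i.2) x‖ₑ ^ (4:ℝ) := fun i =>
    (hxs_m2 R0 R G hG i.1 i.2 (M', c)).const_mul _
  have h4 : Measurable fun x : E n => ∑' i, hxs_c n R0 i *
      ‖opA (pw R i.1) R0 R (2 * R) (M', c) (Gs R0 G i.1 i.2) x‖ₑ ^ (4:ℝ) := Measurable.ennreal_tsum h3
  have h5 : ∫⁻ x : E n, (∑' i, hxs_c n R0 i) ^ (3:ℝ) * ∑' i, hxs_c n R0 i *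
          ‖opA (pw R i.1) R0 R (2 * R) (M', c) (Gs R0 G i.1 i.2) x‖ₑ ^ (4:ℝ) = hxs_W R0 R G (M', c) := by
    rw [lintegral_const_mul _ h4, lintegral_tsum fun i => (h3 i).aemeasurable]
    unfold hxs_W
    have h6 : ∀ i : Σ k : ℕ, (Fin k → Fin n × Fin n), ∫⁻ x : E n, hxs_c n R0 i *
      ‖opA (pw R i.1) R0 R (2 * R) (M', c) (Gs R0 G i.1 i.2) x‖ₑ ^ (4:ℝ) = hxs_c n R0 i *
        ∫⁻ x : E n, ‖opA (pw R i.1) R0 R (2 * R) (M', c) (Gs R0 G i.1 i.2) x‖ₑ ^ (4:ℝ) := fun i =>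
      lintegral_const_mul _ (hxs_m2 R0 R G hG i.1 i.2 (M', c))
    rw [tsum_congr h6]
  rw [← h5]
  exact lintegral_mono (hxs_point R0 R hR0 hR G hG hb M M' hM c)

theorem hxs_int {n : ℕ} (R0 R : ℝ) (hR0 : 1 ≤ R0) (hR : 1 ≤ R) (G : E n → ℂ) (hG : Measurable G)
    (hb : ∀ w, ‖G w‖ ≤ 1) (B : ℝ≥0∞)
    (hB : ∀ A : ℝ → ℂ, Continuous A → (∀ τ ∈ Icc R (2 * R), ‖A τ‖ ≤ 1) →
      ∀ G : E n → ℂ, Measurable G → (∀ w, ‖G w‖ ≤ 1) →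
      ∫⁻ l, (∫⁻ x : E n, ‖opA A R0 R (2 * R) l G x‖ₑ ^ (4:ℝ)) ∂(mu n) ≤ B) :
    ∫⁻ l, hxs_W R0 R G l ∂(mu n) ≤ (∑' i, hxs_c n R0 i) ^ (3:ℝ) * ((∑' i, hxs_c n R0 i) * B) := by
  have h3 : ∀ i : Σ k : ℕ, (Fin k → Fin n × Fin n), Measurable fun l : Mat n × ℝ => hxs_c n R0 i *
      ∫⁻ x : E n, ‖opA (pw R i.1) R0 R (2 * R) l (Gs R0 G i.1 i.2) x‖ₑ ^ (4:ℝ) := fun i =>
    (hxs_m1 R0 R G hG i.1 i.2).const_mul _
  have h4 : Measurable fun l : Mat n × ℝ => ∑' i, hxs_c n R0 i *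
      ∫⁻ x : E n, ‖opA (pw R i.1) R0 R (2 * R) l (Gs R0 G i.1 i.2) x‖ₑ ^ (4:ℝ) := Measurable.ennreal_tsum h3
  have h1 : ∀ i : Σ k : ℕ, (Fin k → Fin n × Fin n), ∫⁻ l, hxs_c n R0 i *
      (∫⁻ x : E n, ‖opA (pw R i.1) R0 R (2 * R) l (Gs R0 G i.1 i.2) x‖ₑ ^ (4:ℝ)) ∂(mu n) ≤
      hxs_c n R0 i * B := by
    intro i
    rw [lintegral_const_mul _ (hxs_m1 R0 R G hG i.1 i.2)]
    have h2 := hB (pw R i.1) (continuous_pw R i.1) (fun τ hτ => norm_pw_le R (by linarith) i.1 τ hτ)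
      (Gs R0 G i.1 i.2) (measurable_Gs R0 G hG i.1 i.2) (norm_Gs_le R0 (by linarith) G hb i.1 i.2)
    exact mul_le_mul' le_rfl h2
  have h5 : ∫⁻ l, hxs_W R0 R G l ∂(mu n) = (∑' i, hxs_c n R0 i) ^ (3:ℝ) * ∑' i, ∫⁻ l, hxs_c n R0 i *
      (∫⁻ x : E n, ‖opA (pw R i.1) R0 R (2 * R) l (Gs R0 G i.1 i.2) x‖ₑ ^ (4:ℝ)) ∂(mu n) := by
    unfold hxs_W
    rw [lintegral_const_mul _ h4, lintegral_tsum fun i => (h3 i).aemeasurable]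
  rw [h5]
  refine mul_le_mul' le_rfl ((ENNReal.tsum_le_tsum h1).trans (le_of_eq ?_))
  rw [ENNReal.tsum_mul_right]

/-
ROW XS (1 h). wsum_four: Hölder with exponents 4/3 and 4 for the counting measure: c f = c^(3/4) (c^(1/4) f) (ENNReal.inner_le_Lp_mul_Lq_tsum or
ENNReal.lintegral_mul_le_Lp_mul_Lq with Measure.count and lintegral_count; no finiteness needed).
stab: index set ι = Σ k, (Fin k → Fin n × Fin n) (countable), weights c_(k,s) = ofReal ((4π R0²)^k / k!),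
Σ c = Σ_k (4π R0² n²)^k / k! = exp(4π R0² n²) =: S < ∞ (card of Fin k → Fin n × Fin n is (n²)^k; ENNReal.tsum_sigma, tsum_fintype,
ENNReal.ofReal_tsum_of_nonneg, Real.exp series / NormedSpace.expSeries_div_summable). W l := S^3 * Σ' c_(k,s) * ∫⁻ x ‖opA (pw R k) R0 R (2R) l (Gs R0 G k s) x‖ₑ^4:
measurable (measurable_opA, Measurable.lintegral_prod_right', Measurable.tsum). (1) `op_expand` and wsum_four pointwise in x, then lintegral_tsum (measurability in x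
from measurable_opA). (2) ∫⁻ W ∂(mu n) = S^3 Σ' c ∫⁻∫⁻ ≤ S^4 * ofReal (C (1 + log R)^n / R^(n-2)) by L4_boundA (continuous_pw, norm_pw_le, measurable_Gs, norm_Gs_le).
-/
theorem stab (n : ℕ) (hn : 3 ≤ n) (R0 : ℝ) (hR0 : 1 ≤ R0) : ∃ C : ℝ, 0 < C ∧ ∀ R : ℝ, 1 ≤ R →
    ∀ G : E n → ℂ, Measurable G → (∀ w, ‖G w‖ ≤ 1) → ∃ W : Mat n × ℝ → ℝ≥0∞, Measurable W ∧
      (∀ (M M' : Mat n) (c : ℝ), (∀ i j, |M i j - M' i j| ≤ 1 / R) →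
        ∫⁻ x : E n, ‖op R0 R (2 * R) (M, c) G x‖ₑ ^ (4:ℝ) ≤ W (M', c)) ∧
      ∫⁻ l, W l ∂(mu n) ≤ ENNReal.ofReal (C * (1 + Real.log R) ^ n / R ^ (n - 2)) := by
  obtain ⟨C, hC, hL4⟩ := L4_boundA n hn R0 hR0
  refine ⟨Real.exp (4 * π * R0 ^ 2 * (n * n)) ^ 4 * C, by positivity, ?_⟩
  intro R hR G hG hG1
  refine ⟨hxs_W R0 R G, hxs_W_meas R0 R G hG, fun M M' c hM => hxs_le R0 R hR0 hR G hG hG1 M M' hM c, ?_⟩
  refine (hxs_int R0 R hR0 hR G hG hG1 _ (hL4 R hR)).trans (le_of_eq ?_)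
  rw [hxs_sum, ← mul_assoc, ENNReal.ofReal_rpow_of_nonneg (Real.exp_pos _).le (by norm_num),
    ← ENNReal.ofReal_mul (by positivity), ← ENNReal.ofReal_mul (by positivity)]
  congr 1
  have h2 : Real.exp (4 * π * R0 ^ 2 * (n * n)) ^ (3:ℝ) = Real.exp (4 * π * R0 ^ 2 * (n * n)) ^ 3 := by
    rw [← Real.rpow_natCast]
    norm_num
  rw [h2]
  ring

end Pool.Agent.AEE
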